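import Pool.Agent.H.MP_216434_al.Main

set_option autoImplicit false

namespace Pool.Agent.H.MP_216434_al

open Filter

lemma exP (m : ℕ → ℕ) : ∃ P : ℕ → ℕ, (∀ i, (P i).Prime) ∧ 8 ≤ P 0 ∧ (∀ i, P i % 4 = 1) ∧
    (∀ i, P i + 5 < P (i + 1)) ∧ (∀ i, m (P i) < P (i + 1)) ∧ ∀ i, 2 ^ ((i + 1) ^ 2) < P (i + 1) := by
  choose F F1 F2 F3 using fun n => Nat.exists_prime_gt_modEq_one (k := 4) n (by omega)
  refine ⟨fun n => Nat.rec (F 8) (fun i p => F (p + 5 + m p + 2 ^ ((i + 1) ^ 2))) n,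
    fun i => by cases i <;> exact F1 _, (F2 8).le, fun i => by cases i <;> exact F3 _,
    fun i => lt_of_le_of_lt ?_ (F2 _), fun i => lt_of_le_of_lt ?_ (F2 _),
    fun i => lt_of_le_of_lt ?_ (F2 _)⟩
  · exact (Nat.le_add_right _ _).trans (Nat.le_add_right _ _)
  · exact (Nat.le_add_left _ _).trans (Nat.le_add_right _ _)
  · exact Nat.le_add_left _ _

lemma ineq (r : ℝ) (hr : 0 < r) (i0 i : ℕ) (hi0 : 18 / r < i0) (h : i0 + 2 ≤ i + 2) :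
    ((4 * (i + 4) + 2 : ℕ) : ℝ) < (((i + 1) ^ 2 : ℕ) : ℝ) * r := by
  have c1 : (i0 : ℝ) ≤ i := by exact_mod_cast (by omega : i0 ≤ i)
  have c2 : 18 < (i + 1 : ℝ) * r := by
    rw [div_lt_iff₀ hr] at hi0; nlinarith
  push_cast
  nlinarith [Nat.cast_nonneg (α := ℝ) i]

lemma analytic (P m c s : ℕ → ℕ) (p1 : ∀ i, P i + 5 < P (i + 1)) (p2 : ∀ i, m (P i) < P (i + 1))
    (p3 : ∀ i, 2 ^ ((i + 1) ^ 2) < P (i + 1))
    (up : ∀ n j, (∀ i, j ≤ i → n + 5 < P i) → c n ≤ 2 ^ (4 * j + 2))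
    (lo : ∀ n i, m (P i) ≤ n → P i ≤ s n) (r : ℝ) (hr : 0 < r) :
    ∀ᶠ n in atTop, (c n : ℝ) < (s n : ℝ) ^ r := by
  have mono : StrictMono P := strictMono_nat_of_lt_succ fun i => by have := p1 i; omega
  obtain ⟨i0, hi0⟩ := exists_nat_gt (18 / r)
  refine eventually_atTop.2 ⟨P (i0 + 2), fun n hn => ?_⟩
  have ex : ∃ i, n < P (i + 1) := ⟨n, lt_of_lt_of_le (Nat.lt_succ_self n) mono.le_apply⟩
  have a1 := Nat.find_spec ex
  have a2 : i0 + 2 ≤ Nat.find ex := by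
    by_contra hc
    exact (a1.trans_le (mono.monotone (show Nat.find ex + 1 ≤ i0 + 2 by omega))).not_ge hn
  obtain ⟨i, hi⟩ : ∃ i, Nat.find ex = i + 2 := ⟨Nat.find ex - 2, by omega⟩
  have a3 := Nat.find_min ex (show i + 1 < Nat.find ex by omega)
  rw [hi] at a1 a2
  have b1 := up n (i + 4) fun k hk =>
    ((Nat.add_lt_add_right a1 5).trans (p1 (i + 3))).trans_le (mono.monotone hk)
  have b3 := (p3 i).le.trans (lo n (i + 1) ((p2 (i + 1)).le.trans (not_lt.1 a3)))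
  calc (c n : ℝ) ≤ (2 : ℝ) ^ ((4 * (i + 4) + 2 : ℕ) : ℝ) := by
        rw [Real.rpow_natCast]; exact_mod_cast b1
    _ < (2 : ℝ) ^ ((((i + 1) ^ 2 : ℕ) : ℝ) * r) :=
        Real.rpow_lt_rpow_of_exponent_lt one_lt_two (ineq r hr i0 i hi0 a2)
    _ ≤ _ := by
        rw [Real.rpow_mul zero_le_two, Real.rpow_natCast]
        exact Real.rpow_le_rpow (by positivity) (by exact_mod_cast b3) hr.le

theorem exists_G : ∃ (G : Type) (_ : Group G), Group.FG G ∧ OF G ∧ ∀ r : ℝ, 0 < r → ∀ᶠ n in atTop,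
    (({N : Subgroup G | N.Characteristic ∧ N.index ≠ 0 ∧ N.index ≤ n}.ncard : ℕ) : ℝ) <
      (({N : Subgroup G | N.Normal ∧ N.index ≠ 0 ∧ N.index ≤ n}.ncard : ℕ) : ℝ) ^ r := by
  obtain ⟨P, p0, p8, p4, p1, p2, p3⟩ := exP fun p => Nat.card (Wr p) ^ 2
  have mono : StrictMono P := strictMono_nat_of_lt_succ fun i => by have := p1 i; omega
  haveI : ∀ i, Fact (P i).Prime := fun i => ⟨p0 i⟩
  have h8 : ∀ i, 8 ≤ P i := fun i => p8.trans (mono.monotone (Nat.zero_le i))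
  obtain ⟨S, s1, s2, s3, s4, s5⟩ := exG P mono.injective h8 p4
  have hS : Good P S := ⟨mono.injective, h8, s1, s2, s3, s4, s5⟩
  exact ⟨AG S × AG S, inferInstance, G_fg hS, G_of hS,
    analytic P (fun p => Nat.card (Wr p) ^ 2) _ _ p1 p2 p3 (upper hS) (lower hS)⟩

end Pool.Agent.H.MP_216434_al
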