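import Pool.Agent.H.MP_fcd401_al.Full
import Pool.Agent.H.MP_fcd401_al.Cnt

set_option autoImplicit false

namespace Pool.Agent.H.MP_216434_al

open Classical Equiv Equiv.Perm Pool.Agent.H.MP_fcd401_al

variable (P : ℕ → ℕ) [∀ i, Fact (P i).Prime] (θ : ℝ)

abbrev Om := Σ i : ℕ, ZMod (P i)
abbrev WP := ∀ i : ℕ, Perm (ZMod (P i))

instance act : AddAction ℤ (Om P) where
  vadd t y := ⟨y.1, y.2 + t⟩
  zero_vadd y := by show (⟨y.1, y.2 + ((0 : ℤ) : ZMod _)⟩ : Om P) = y; simp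
  add_vadd s t y := by
    show (⟨y.1, y.2 + ((s + t : ℤ) : ZMod _)⟩ : Om P) = ⟨y.1, y.2 + t + s⟩
    congr 1; push_cast; ring

lemma vadd_def (t : ℤ) (a : ℕ) (x : ZMod (P a)) : t +ᵥ (⟨a, x⟩ : Om P) = ⟨a, x + t⟩ := rfl

noncomputable def l0 (y : Om P) : Option Prop :=
  if y.2 = 0 then none else some (⌊((y.2.val : ℕ) + 1 : ℝ) * θ⌋ - ⌊((y.2.val : ℕ) : ℝ) * θ⌋ = 0)

noncomputable def lb (y : Om P) : Option Prop × Fin 4 := (l0 P θ y, ⟨y.2.val % 4, by omega⟩)

lemma l0_none (a : ℕ) (x : ZMod (P a)) : l0 P θ ⟨a, x⟩ = none ↔ x = 0 := by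
  unfold l0; split_ifs with h <;> simp_all

lemma ap (hθ : Irrational θ) (h0 : 0 < θ) (h1 : θ < 1) (k : ℕ) :
    ∃ r, ∀ y : Om P, Per (lb P θ) k r y → P y.1 ≤ k := by
  choose! T hT using sturm θ hθ
  refine ⟨(Finset.range (k + 1)).sup T + k, ?_⟩
  rintro ⟨a, x⟩ ⟨p, p0, pk, h⟩
  replace h : ∀ t : ℤ, |t| ≤ ((Finset.range (k + 1)).sup T + k : ℕ) →
      l0 P θ ((t + p) +ᵥ ⟨a, x⟩) = l0 P θ (t +ᵥ ⟨a, x⟩) := fun t ht => congrArg Prod.fst (h t ht)
  have t1 : T p ≤ (Finset.range (k + 1)).sup T := Finset.le_sup (Finset.mem_range.2 (by omega))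
  set r := (Finset.range (k + 1)).sup T + k with hr
  by_contra hc
  simp only [not_le] at hc
  have pn : ((p : ℤ) : ZMod (P a)) ≠ 0 := by
    rw [Int.cast_natCast, Ne, ZMod.natCast_eq_zero_iff]
    exact Nat.not_dvd_of_pos_of_lt p0 (by omega)
  have nz : ∀ t : ℤ, |t| ≤ r → x + t ≠ 0 ∧ x + ((t + p : ℤ) : ZMod _) ≠ 0 := by
    intro t ht
    have e := h t ht
    rw [vadd_def, vadd_def] at e
    have : x + t ≠ 0 := by
      intro h2
      rw [(l0_none P θ a _).2 h2, l0_none, Int.cast_add, ← add_assoc, h2, zero_add] at e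
      exact pn e
    refine ⟨this, fun h2 => this ?_⟩
    rw [(l0_none P θ a _).2 h2, eq_comm, l0_none] at e
    exact e
  have xv := ZMod.val_lt x
  have small : x.val + r + p < P a := by
    by_contra hb
    have z : x + ((P a - x.val : ℕ) : ℤ) = 0 := by
      rw [Int.cast_natCast, Nat.cast_sub xv.le, ZMod.natCast_self, ZMod.natCast_zmod_val]; ring
    by_cases hs : P a - x.val ≤ r
    · exact (nz _ (by rw [abs_le]; omega)).1 z
    · refine (nz (((P a - x.val : ℕ) : ℤ) - p) (by rw [abs_le]; omega)).2 ?_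
      rwa [sub_add_cancel]
  have vl : ∀ i : ℕ, i ≤ r + p → (x + ((i : ℤ) : ZMod _)).val = x.val + i := by
    intro i hi
    rw [Int.cast_natCast, ZMod.val_add_of_lt] <;> rw [ZMod.val_natCast, Nat.mod_eq_of_lt (by omega)]
    omega
  have dd : ∀ m : ℝ, ⌊(m + 1) * θ⌋ - ⌊m * θ⌋ = 0 ∨ ⌊(m + 1) * θ⌋ - ⌊m * θ⌋ = 1 := by
    intro m
    have a1 : ⌊m * θ⌋ ≤ ⌊(m + 1) * θ⌋ := Int.floor_le_floor (by linarith)
    have a2 : ⌊(m + 1) * θ⌋ ≤ ⌊m * θ + 1⌋ := Int.floor_le_floor (by linarith)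
    rw [Int.floor_add_one] at a2
    omega
  refine hT p p0 x.val fun i hi => ?_
  have e := h i (by rw [abs_le]; omega)
  obtain ⟨n1, n2⟩ := nz i (by rw [abs_le]; omega)
  rw [vadd_def, vadd_def, l0, l0, if_neg n1, if_neg n2] at e
  simp only [Option.some.injEq, eq_iff_iff] at e
  rw [← Nat.cast_add, vl _ (by omega), vl _ (by omega), ← add_assoc] at e
  have d1 := dd ((x.val + i + p : ℕ) : ℝ)
  have d2 := dd ((x.val + i : ℕ) : ℝ)
  omega

lemma per_of_le (k r : ℕ) (y : Om P) (h : P y.1 ≤ k) : Per (lb P θ) k r y := by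
  obtain ⟨a, x⟩ := y
  refine ⟨P a, (Fact.out : (P a).Prime).pos, h, fun t _ => ?_⟩
  rw [vadd_def, vadd_def, Int.cast_add, Int.cast_natCast, ZMod.natCast_self, add_zero]

def iw : WP P →* Perm (Om P) := sigmaCongrRightHom _

omit [∀ i, Fact (P i).Prime] in
lemma iw_apply (w : WP P) (a : ℕ) (x : ZMod (P a)) : iw P w ⟨a, x⟩ = ⟨a, w a x⟩ := rfl
omit [∀ i, Fact (P i).Prime] in
lemma iw_inj : Function.Injective (iw P) := sigmaCongrRightHom_injective

lemma iw_range (f : Perm (Om P)) (hf : ∀ y, ∃ t : ℤ, f y = t +ᵥ y) : ∃ w, iw P w = f := by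
  choose t ht using hf
  have inj : ∀ a, Function.Injective fun x : ZMod (P a) => x + (t ⟨a, x⟩ : ZMod _) := by
    intro a x y h
    have : f ⟨a, x⟩ = f ⟨a, y⟩ := by rw [ht, ht, vadd_def, vadd_def]; exact congrArg _ h
    simpa using this
  exact ⟨fun a => Equiv.ofBijective _ (Finite.injective_iff_bijective.1 (inj a)),
    Equiv.ext fun ⟨a, x⟩ => (ht ⟨a, x⟩).symm⟩

def G0 (r : ℕ) : Subgroup (WP P) := Subgroup.closure (iw P ⁻¹' gens (lb P θ) r)

lemma gens_G0 (r : ℕ) : gens (lb P θ) r ⊆ (G0 P θ r).map (iw P) := by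
  rintro _ ⟨x, j, rfl⟩
  obtain ⟨w, hw⟩ := iw_range P _ (cy_orb _)
  exact ⟨w, Subgroup.subset_closure (by rw [Set.mem_preimage, hw]; exact ⟨x, j, rfl⟩), hw⟩

def fe (n : ℕ) [NeZero n] : Fin n ≃ ZMod n where
  toFun i := (((i : ℕ) : ℤ) : ZMod n)
  invFun x := ⟨x.val, ZMod.val_lt x⟩
  left_inv i := Fin.ext (by simp [ZMod.val_natCast, Nat.mod_eq_of_lt i.2])
  right_inv x := by simp

def tr (k : ℕ) {F : ℕ → Type} [∀ i, Group (F i)] : (∀ i, F i) →* ∀ i, F i :=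
  MonoidHom.mk' (fun w a => if P a ≤ k then 1 else w a) fun u v => by
    funext a; by_cases h : P a ≤ k <;> simp [h]

def lam {n : ℕ} (y : ZMod n) : ZMod n :=
  if y.val % 2 = 1 then ((y.val + 1) / 2 : ℕ) else -((y.val / 2 : ℕ) : ZMod n)

lemma lam_step {n : ℕ} (c : ℕ) (hc : c ≤ 1) (y y' : ZMod n) (h : y.val % 2 = c) (e : y'.val = y.val + 1) :
    lam y' = (1 - c) - lam y := by
  unfold lam
  interval_cases c
  · rw [if_pos (by omega), if_neg (by omega), show (y'.val + 1) / 2 = y.val / 2 + 1 by omega]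
    push_cast; ring
  · rw [if_neg (by omega), if_pos h, e]; simp

def UU (c : ℕ) : Set (Om P) := {y | y.2.val % 4 = c ∧ y.2.val + 4 ≤ P y.1}

lemma val_add {n : ℕ} [NeZero n] (x : ZMod n) (h : x.val + 4 ≤ n) (i : Fin 4) :
    (x + (((i : ℕ) : ℤ) : ZMod n)).val = x.val + i := by
  have := i.2
  rw [Int.cast_natCast, ZMod.val_add_of_lt] <;> rw [ZMod.val_natCast, Nat.mod_eq_of_lt (by omega)]
  omega

lemma UU_sep (c : ℕ) : Sep 4 (UU P c) := by
  rintro ⟨m, x⟩ ⟨a, b⟩ ⟨m', y⟩ ⟨a', b'⟩ i j e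
  rw [vadd_def, vadd_def] at e
  obtain ⟨e1, e2⟩ := Sigma.mk.inj e
  cases e1
  have e3 := congrArg ZMod.val (eq_of_heq e2)
  rw [val_add x b, val_add y b'] at e3
  have := i.2
  have := j.2
  simp only at a a'
  exact ⟨by rw [ZMod.val_injective _ (show x.val = y.val by omega)], Fin.ext (by omega)⟩

variable (h4 : ∀ i, P i % 4 = 1)
include h4

lemma UU_loc (c : ℕ) (hc : c ≤ 1) : Loc (lb P θ) 1 (UU P c) := by
  rintro ⟨m, x⟩ ⟨a, b⟩ ⟨m', y⟩ hy
  have e0 := hy 0 (by simp)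
  rw [zero_vadd, zero_vadd] at e0
  replace e0 : y.val % 4 = x.val % 4 := congrArg (fun u => (u.2 : ℕ)) e0
  have e1 := congrArg Prod.fst (hy 1 (by simp))
  simp only at a b
  simp only [lb, vadd_def] at e1
  have n1 : x + ((1 : ℤ) : ZMod _) ≠ 0 := fun e => by
    have := val_add x b 1
    simp only [Fin.val_one, Nat.cast_one] at this
    rw [e] at this; simp at this
  have n2 : y.val + 1 ≠ P m' := fun e => n1 (by
    rw [← l0_none P θ, ← e1, l0_none, ← ZMod.natCast_zmod_val y, Int.cast_one, ← Nat.cast_succ,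
      Nat.succ_eq_add_one, e, ZMod.natCast_self])
  have := ZMod.val_lt y
  have := h4 m'
  exact ⟨by simp only; omega, by simp only; omega⟩

lemma zig (c : ℕ) (hc : c ≤ 1) (i : ℕ) (y : ZMod (P i)) :
    ∃ y', Ph 4 (UU P c) (swap 0 1 * swap 2 3) ⟨i, y⟩ = ⟨i, y'⟩ ∧ lam y' = (1 - c) - lam y := by
  by_cases h : ∀ x ∈ UU P c, ∀ j : Fin 4, (⟨i, y⟩ : Om P) ≠ ((j : ℕ) : ℤ) +ᵥ x
  · refine ⟨y, Ph_not _ _ h, ?_⟩
    have yv := ZMod.val_lt y
    have := h4 i
    have hy : y.val + 1 = c * 1 + (1 - c) * P i := by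
      by_contra hn
      have hj : (y.val - c) % 4 < 4 := by omega
      have e : ((y.val - (y.val - c) % 4 : ℕ) : ZMod (P i)).val = y.val - (y.val - c) % 4 := by
        rw [ZMod.val_natCast, Nat.mod_eq_of_lt (by omega)]
      refine h ⟨i, (y.val - (y.val - c) % 4 : ℕ)⟩ ⟨?_, ?_⟩ ⟨_, hj⟩ ?_
      · simp only [e]; interval_cases c <;> omega
      · simp only [e]; interval_cases c <;> omega
      · rw [vadd_def, Int.cast_natCast, ← Nat.cast_add, Nat.sub_add_cancel (by omega),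
          ZMod.natCast_zmod_val]
    unfold lam
    interval_cases c
    · rw [if_neg (by omega)]
      have : ((2 * (y.val / 2) + 1 : ℕ) : ZMod (P i)) = 0 := by
        rw [show 2 * (y.val / 2) + 1 = P i by omega, ZMod.natCast_self]
      push_cast at this ⊢
      linear_combination -this
    · rw [if_neg (by omega), show y.val = 0 by omega]; simp
  · push Not at h
    obtain ⟨⟨m, x⟩, hx, j, e⟩ := h
    rw [e, Ph_apply (UU_sep P c) _ _ hx]
    rw [vadd_def] at e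
    obtain ⟨rfl, e2⟩ := Sigma.mk.inj e
    obtain rfl := eq_of_heq e2
    refine ⟨_, rfl, ?_⟩
    obtain ⟨a, b⟩ := hx
    simp only at a b
    have k : ∀ i j : Fin 4, (i : ℕ) % 2 = 0 → (j : ℕ) = i + 1 →
        lam (x + (((j : ℕ) : ℤ) : ZMod _)) = (1 - (c : ZMod _)) - lam (x + (((i : ℕ) : ℤ) : ZMod _)) :=
      fun i j h1 h2 => lam_step c hc _ _ (by rw [val_add x b]; omega) (by
        rw [val_add x b, val_add x b]; omega)
    fin_cases j
    · exact k 0 1 rfl rfl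
    · exact eq_sub_of_add_eq' (eq_sub_iff_add_eq.1 (k 0 1 rfl rfl))
    · exact k 2 3 rfl rfl
    · exact eq_sub_of_add_eq' (eq_sub_iff_add_eq.1 (k 2 3 rfl rfl))

lemma lam_bij (i : ℕ) : Function.Bijective (lam : ZMod (P i) → ZMod (P i)) := by
  refine Finite.surjective_iff_bijective.1 fun x => ?_
  rw [← ZMod.natCast_zmod_val x]
  induction x.val with
  | zero => exact ⟨0, by simp [lam]⟩
  | succ n ih =>
    obtain ⟨y, hy⟩ := ih
    obtain ⟨y1, -, h1⟩ := zig P h4 1 le_rfl i y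
    obtain ⟨y2, -, h2⟩ := zig P h4 0 (by omega) i y1
    exact ⟨y2, by rw [h2, h1, hy]; push_cast; ring⟩

omit h4
variable (r0 : ℕ) (h7 : ∀ x, ¬ Per (lb P θ) 7 r0 x)
include h7

lemma diag (hi : Function.Injective P) (n : ℕ) (g : Perm (ZMod (P n)))
    (hg : g ∈ alternatingGroup (ZMod (P n))) : Pi.mulSingle n g ∈ G0 P θ (r0 + 1) := by
  let U : Set (Om P) := {y | y.1 = n ∧ y.2 = 0}
  have hl : Loc (lb P θ) (P n) U := by
    rintro ⟨m, x⟩ ⟨a, b⟩ ⟨m', y⟩ hy
    obtain rfl : m = n := a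
    obtain rfl : x = 0 := b
    have key : ∀ t : ℕ, t ≤ P m → (y + ((t : ℤ) : ZMod _) = 0 ↔ P m ∣ t) := by
      intro t ht
      have e := congrArg Prod.fst (hy t (by rw [abs_le]; constructor <;> omega))
      simp only [vadd_def, lb] at e
      rw [← l0_none P θ m', e, l0_none, zero_add, Int.cast_natCast, ZMod.natCast_eq_zero_iff]
    have y0 : y = 0 := by simpa using key 0 (by omega)
    subst y0
    simp only [zero_add, Int.cast_natCast, ZMod.natCast_eq_zero_iff] at key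
    have a1 := Nat.le_of_dvd (Fact.out : (P m).Prime).pos ((key _ le_rfl).2 dvd_rfl)
    have a2 := Nat.le_of_dvd (Fact.out : (P m').Prime).pos ((key _ a1).1 dvd_rfl)
    exact ⟨hi (le_antisymm a1 a2), rfl⟩
  have hs : Sep (P n) U := by
    rintro ⟨m, x⟩ ⟨a, b⟩ ⟨m', y⟩ ⟨a', b'⟩ i j e
    obtain rfl : x = 0 := b
    obtain rfl : y = 0 := b'
    obtain rfl : m = n := a
    rw [vadd_def, vadd_def] at e
    obtain ⟨e1, e2⟩ := Sigma.mk.inj e
    cases e1
    refine ⟨rfl, (fe _).injective ?_⟩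
    simpa [fe] using e2
  obtain ⟨w, h1, h2⟩ := Ph_mem (lb P θ) _ r0 h7 (gens_G0 P θ _) hl hs
    (show (fe (P n)).symm.permCongr g ∈ alternatingGroup _ by
      rw [mem_alternatingGroup, sign_permCongr]; exact hg)
  have : Pi.mulSingle n g = w := by
    funext a
    by_cases ha : a = n
    · subst ha
      refine Equiv.ext fun x => ?_
      obtain ⟨i, rfl⟩ := (fe _).surjective x
      have := Ph_apply hs ((fe _).symm.permCongr g) ⟨a, 0⟩ ⟨rfl, rfl⟩ i
      rw [← h2, vadd_def, vadd_def, iw_apply, zero_add, zero_add] at this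
      have e : w a (fe _ i) = fe _ (((fe _).symm.permCongr g) i) := by
        simpa [fe] using this
      simpa using e.symm
    · refine Equiv.ext fun x => ?_
      have := Ph_not (U := U) ((fe _).symm.permCongr g) ⟨a, x⟩ fun y hy i e => ha (by
        rw [← hy.1]; exact congrArg (·.1) e)
      rw [← h2, iw_apply] at this
      simpa [Pi.mulSingle_eq_of_ne ha] using this.symm
  rwa [this]

lemma gen_sep (x : Om P) (a : ℤ) : Sep 3 (Sh a (Cyl (lb P θ) (r0 + 1) x)) :=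
  (sep_cyl _ subset_rfl fun y _ h => h7 y (h.mono _ (by omega))).sh (by omega) a

omit h7 in
lemma cy_fix {Ω : Type} [AddAction ℤ Ω] {U : Set Ω} (h : Sep 3 U) (y : Ω) (hy : ∀ t : ℤ, t +ᵥ y ∉ U) :
    cy U y = y := by
  rw [cy_eq h, Ph_not]
  rintro x hx i rfl
  exact hy (-((i : ℕ) : ℤ)) (by rwa [neg_vadd_vadd])

lemma kill (hap : ∀ k, ∃ r, ∀ y : Om P, Per (lb P θ) k r y → P y.1 ≤ k) (C : Subgroup (WP P)) (k : ℕ)
    (h0 : C.relIndex (G0 P θ (r0 + 1)) ≠ 0) (hk : C.relIndex (G0 P θ (r0 + 1)) < k) (h5 : 5 ≤ k)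
    (g : WP P) (hg : iw P g ∈ gens (lb P θ) (r0 + 1)) : tr P k g ∈ C := by
  obtain ⟨r, hr⟩ := hap k
  obtain ⟨x, j, hg⟩ := hg
  set V := Sh (((j : ℕ) : ℤ) - 2) (Cyl (lb P θ) (r0 + 1) x)
  have sV : Sep 3 V := gen_sep P θ r0 h7 x _
  have i1 := Subgroup.relIndex_map_map_of_injective C (G0 P θ (r0 + 1)) (iw_inj P)
  obtain ⟨c, hc, e⟩ := cy_kill (lb P θ) _ (C.map (iw P)) r0 h7 (gens_G0 P θ _)
    (by rwa [i1]) k (by omega) (by omega) (U := V ∩ {y | ¬ Per (lb P θ) k r y})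
    (((((loc_cyl _ _ x).sh _ _).mono _ (Nat.le_add_right _ (r + k)))).inter _
      ((loc_per _ k r).mono _ (Nat.le_add_left _ _))) (sV.mono Set.inter_subset_left)
    fun y hy => hy.2
  suffices c = tr P k g from this ▸ hc
  refine iw_inj P (e.trans (Equiv.ext fun ⟨a, y⟩ => ?_))
  rw [iw_apply]
  by_cases h : P a ≤ k
  · rw [cy_fix (U := V ∩ {y | ¬ Per (lb P θ) k r y}) (sV.mono Set.inter_subset_left) ⟨a, y⟩
      fun t ht => ht.2 (per_of_le P θ k r _ h)]
    simp [tr, h]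
  · have e1 : V = (V ∩ {y | ¬ Per (lb P θ) k r y}) ∪ (V ∩ {y | Per (lb P θ) k r y}) := by
      ext y; simp only [Set.mem_union, Set.mem_inter_iff, Set.mem_setOf_eq]; tauto
    have e2 : cy V = cy (V ∩ {y | ¬ Per (lb P θ) k r y}) * cy (V ∩ {y | Per (lb P θ) k r y}) := by
      rw [cy_eq sV, cy_eq (sV.mono Set.inter_subset_left), cy_eq (sV.mono Set.inter_subset_left),
        ← Ph_union (e1 ▸ sV) (Set.disjoint_left.2 fun y a b => a.2 b.2), ← e1]
    have e3 := Equiv.congr_fun (hg.trans e2) ⟨a, y⟩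
    rw [Perm.mul_apply, cy_fix (U := V ∩ {y | Per (lb P θ) k r y})
      (sV.mono Set.inter_subset_left) ⟨a, y⟩ fun t ht => h (hr _ ht.2)] at e3
    rw [← e3, iw_apply]
    simp [tr, h]

omit h7

theorem exG (hi : Function.Injective P) (h8 : ∀ i, 8 ≤ P i) (h4 : ∀ i, P i % 4 = 1) :
    ∃ S : Set (WP P), S.Finite ∧ (∀ g ∈ S, g ^ 3 = 1) ∧
      (∀ c : ℕ, c ≤ 1 → (fun i => Equiv.subLeft (1 - c : ZMod (P i))) ∈ Subgroup.closure S) ∧
      (∀ i g, g ∈ alternatingGroup (ZMod (P i)) → Pi.mulSingle i g ∈ Subgroup.closure S) ∧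
      ∀ (C : Subgroup (WP P)) (k : ℕ), C.relIndex (Subgroup.closure S) ≠ 0 →
        C.relIndex (Subgroup.closure S) < k → 5 ≤ k → ∀ g ∈ S, tr P k g ∈ C := by
  have hθ : Irrational (√2 - 1) := by simpa using irrational_sqrt_two.sub_natCast 1
  have s1 : 1 < √2 := Real.lt_sqrt_of_sq_lt (by norm_num)
  have s2 : √2 < 2 := (Real.sqrt_lt' (by norm_num)).2 (by norm_num)
  generalize hb : √2 - 1 = β at hθ
  have hap := ap P β hθ (by linarith) (by linarith)
  obtain ⟨r0, hr⟩ := hap 7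
  have h7 : ∀ x, ¬ Per (lb P β) 7 r0 x := fun x h => by have := hr x h; have := h8 x.1; omega
  let e := fun i => Equiv.ofBijective _ (lam_bij P h4 i)
  let E : WP P ≃* WP P := MulEquiv.piCongrRight fun i => (e i).permCongrHom
  have cl : Subgroup.closure (E.toMonoidHom '' (iw P ⁻¹' gens (lb P β) (r0 + 1))) =
      (G0 P β (r0 + 1)).map E.toMonoidHom := (MonoidHom.map_closure _ _).symm
  refine ⟨E.toMonoidHom '' (iw P ⁻¹' gens (lb P β) (r0 + 1)),
    ((gens_fin _ _).preimage (iw_inj P).injOn).image _, ?_, fun c hc => ?_, fun i g hg => ?_,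
    fun C k h0 hk h5 => ?_⟩
  · rintro _ ⟨g, ⟨x, j, hg⟩, rfl⟩
    rw [← map_pow, iw_inj P (show iw P (g ^ 3) = iw P 1 by
      rw [map_pow, hg, cy_pow (gen_sep P β r0 h7 x _), map_one]), map_one]
  · obtain ⟨w, h1, h2⟩ := Ph_mem (lb P β) _ r0 h7 (gens_G0 P β _) (UU_loc P β h4 c hc) (UU_sep P c)
      (show swap 0 1 * swap 2 3 ∈ alternatingGroup (Fin 4) by
        rw [mem_alternatingGroup, map_mul, sign_swap (by decide), sign_swap (by decide)]; simp)
    refine cl ▸ ⟨w, h1, funext fun i => Equiv.ext fun x => ?_⟩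
    obtain ⟨y, rfl⟩ := (e i).surjective x
    obtain ⟨y', a1, a2⟩ := zig P h4 c hc i y
    rw [← h2, iw_apply] at a1
    obtain rfl : w i y = y' := by simpa using a1
    simpa [E, e] using a2
  · refine cl ▸ ⟨_, diag P β r0 h7 hi i ((e i).symm.permCongr g) (by
      rw [mem_alternatingGroup, sign_permCongr]; exact hg), funext fun a => ?_⟩
    by_cases ha : a = i
    · subst ha; ext x; simp [E]
    · ext x; simp [E, Pi.mulSingle_eq_of_ne ha]
  · rintro _ ⟨g, hg, rfl⟩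
    rw [cl, ← Subgroup.relIndex_comap] at h0 hk
    have := kill P β r0 h7 hap _ k h0 hk h5 g hg
    have e2 : tr P k (E.toMonoidHom g) = E.toMonoidHom (tr P k g) := by
      funext a; by_cases h : P a ≤ k <;> simp [tr, h, E]
    rwa [e2]

end Pool.Agent.H.MP_216434_al
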