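import Pool.Agent.H.MP_216434_al.Lam
import Pool.Agent.H.MP_216434_al.Loc

set_option autoImplicit false

namespace Pool.Agent.H.MP_216434_al

open Classical Equiv Equiv.Perm Finsupp Pool.Agent.H.MP_fcd401_al

variable (P : ℕ → ℕ) [∀ i, Fact (P i).Prime]

structure Good (S : Set (WP P)) : Prop where
  hi : Function.Injective P
  h8 : ∀ i, 8 ≤ P i
  fin : S.Finite
  cube : ∀ g ∈ S, g ^ 3 = 1
  refl : ∀ c : ℕ, c ≤ 1 → (fun i => Equiv.subLeft (1 - c : ZMod (P i))) ∈ Subgroup.closure S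
  sing : ∀ i g, g ∈ alternatingGroup (ZMod (P i)) → Pi.mulSingle i g ∈ Subgroup.closure S
  kill : ∀ (C : Subgroup (WP P)) (k : ℕ), C.relIndex (Subgroup.closure S) ≠ 0 →
    C.relIndex (Subgroup.closure S) < k → 5 ≤ k → ∀ g ∈ S, tr P k g ∈ C

abbrev WW := ∀ i, Wr (P i)

def IP : WP P →* WW P := MonoidHom.mk' (fun g i => iP (g i)) fun _ _ => funext fun _ => map_mul _ _ _
def ff : WW P := fun _ => iV (dl 0)
def IQ : WP P →* WW P := (MulAut.conj (ff P)).toMonoidHom.comp (IP P)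
def DD (e : ℤˣ) (k : ℤ) : WP P := fun i => aff (P i) e k
noncomputable def ww (u : ℤ →₀ ℤ) : WW P := fun i => iV (pj (P i) u)

instance (p : ℕ) [Fact p.Prime] : (EE p).Normal := ⟨fun e he u => ⟨by
  simpa using (inferInstance : (alternatingGroup (ZMod p)).Normal).conj_mem _ he.1 u.g, by
  simp only [mul_v, inv_v, Finset.sum_add_distrib, Equiv.sum_comp u.g⁻¹ e.v, he.2,
    Equiv.sum_comp (u * e).g⁻¹ fun x => -u.v (u.g x), Finset.sum_neg_distrib, Equiv.sum_comp u.g u.v]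
  simp⟩⟩

omit [∀ i, Fact (P i).Prime] in
lemma DD_mul (e e' : ℤˣ) (k k' : ℤ) : DD P e k * DD P e' k' = DD P (e * e') (e * k' + k) :=
  funext fun _ => aff_mul _ _ _ _

omit [∀ i, Fact (P i).Prime] in
lemma DD_one : DD P 1 0 = 1 := funext fun _ => aff_one

omit [∀ i, Fact (P i).Prime] in
lemma DD_zpow (k n : ℤ) : DD P 1 k ^ n = DD P 1 (n * k) := by
  induction n using Int.induction_on with
  | zero => simp [DD_one]
  | succ n ih => rw [zpow_add_one, ih, DD_mul]; congr 1; simp; ring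
  | pred n ih => rw [zpow_sub_one, ih, mul_inv_eq_iff_eq_mul, DD_mul]; congr 1; simp; ring

omit [∀ i, Fact (P i).Prime] in
lemma ww_add (u v : ℤ →₀ ℤ) : ww P (u + v) = ww P u * ww P v :=
  funext fun _ => by simp [ww, iV_add]

omit [∀ i, Fact (P i).Prime] in
lemma ww_neg (u : ℤ →₀ ℤ) : ww P (-u) = (ww P u)⁻¹ := funext fun _ => by simp [ww, iV_neg]

omit [∀ i, Fact (P i).Prime] in
lemma ww_zero : ww P 0 = 1 := funext fun _ => by simp [ww, iV_zero]

omit [∀ i, Fact (P i).Prime] in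
lemma ww_sh (e : ℤˣ) (k : ℤ) (u : ℤ →₀ ℤ) :
    IP P (DD P e k) * ww P u = ww P (sh e k u) * IP P (DD P e k) :=
  funext fun i => by ext <;> simp [ww, IP, DD, pj_sh]

def HH (S : Set (WP P)) : Subgroup (WW P) := Subgroup.closure (IP P '' S ∪ IQ P '' S)

def LL : Subgroup (WW P) where
  carrier := {l | ∃ u e k, l = ww P u * IP P (DD P e k)}
  one_mem' := ⟨0, 1, 0, by simp [ww_zero, DD_one]⟩
  mul_mem' := by
    rintro _ _ ⟨u, e, k, rfl⟩ ⟨u', e', k', rfl⟩
    exact ⟨u + sh e k u', _, _, by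
      rw [ww_add, ← DD_mul, map_mul, mul_assoc, mul_assoc, ← mul_assoc (IP P _), ww_sh, mul_assoc]⟩
  inv_mem' := by
    rintro _ ⟨u, e, k, rfl⟩
    refine ⟨sh e (-e * k) (-u), e, -e * k, ?_⟩
    rw [← ww_sh, ww_neg, mul_inv_rev, ← map_inv]
    congr 2
    rw [inv_eq_iff_mul_eq_one, DD_mul, ← DD_one]
    rcases Int.units_eq_one_or e with rfl | rfl <;> simp

variable {P}

lemma IP_mem {S : Set (WP P)} {g : WP P} (hg : g ∈ Subgroup.closure S) : IP P g ∈ HH P S ∧ IQ P g ∈ HH P S :=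
  ⟨(show Subgroup.closure S ≤ (HH P S).comap _ from (Subgroup.closure_le _).2 fun s hs =>
    Subgroup.subset_closure (Or.inl ⟨s, hs, rfl⟩)) hg,
  (show Subgroup.closure S ≤ (HH P S).comap _ from (Subgroup.closure_le _).2 fun s hs =>
    Subgroup.subset_closure (Or.inr ⟨s, hs, rfl⟩)) hg⟩

omit [∀ i, Fact (P i).Prime] in
lemma sing_mul (i : ℕ) (a b : Wr (P i)) :
    (Pi.mulSingle i (a * b) : WW P) = Pi.mulSingle i a * Pi.mulSingle i b := Pi.mulSingle_mul _ _ _

variable {S : Set (WP P)} (hS : Good P S)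
include hS

lemma HH_cube (h : WW P) (hh : h ∈ IP P '' S ∪ IQ P '' S) : h ^ 3 = 1 := by
  rcases hh with ⟨s, hs, rfl⟩ | ⟨s, hs, rfl⟩ <;> rw [← map_pow, hS.cube s hs, map_one]

lemma HH_fg : Group.FG (HH P S) := (Group.fg_iff_subgroup_fg _).2
  ((Subgroup.fg_iff _).2 ⟨_, rfl, (hS.fin.image _).union (hS.fin.image _)⟩)

lemma HH_E {h : WW P} (hh : h ∈ HH P S) (i : ℕ) : h i ∈ EE (P i) := by
  refine (show HH P S ≤ (EE (P i)).comap (Pi.evalMonoidHom _ i) from (Subgroup.closure_le _).2 ?_) hh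
  have k : ∀ s ∈ S, iP (s i) ∈ EE (P i) := fun s hs => iP_mem (by
    have : sign (s i) ^ 3 = 1 := by rw [← map_pow, ← Pi.pow_apply, hS.cube s hs]; simp
    rcases Int.units_eq_one_or (sign (s i)) with h | h
    · exact h
    · rw [h] at this; exact absurd this (by decide))
  rintro _ (⟨s, hs, rfl⟩ | ⟨s, hs, rfl⟩)
  · exact k s hs
  · exact (inferInstance : (EE (P i)).Normal).conj_mem _ (k s hs) _

lemma DD_mem (e : ℤˣ) (k : ℤ) : DD P e k ∈ Subgroup.closure S := by
  have a : DD P (-1) 0 ∈ Subgroup.closure S := by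
    have := hS.refl 1 le_rfl
    rwa [show (fun i => Equiv.subLeft (1 - ((1 : ℕ) : ZMod (P i)))) = DD P (-1) 0 by
      funext i; ext; simp [DD]] at this
  have b : DD P (-1) 1 ∈ Subgroup.closure S := by
    have := hS.refl 0 zero_le_one
    rwa [show (fun i => Equiv.subLeft (1 - ((0 : ℕ) : ZMod (P i)))) = DD P (-1) 1 by
      funext i; ext; simp [DD]; ring] at this
  have c := Subgroup.zpow_mem _ (mul_mem b a) k
  rw [DD_mul, neg_mul_neg, mul_one, mul_zero, zero_add, DD_zpow, mul_one] at c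
  rcases Int.units_eq_one_or e with rfl | rfl
  · exact c
  · simpa [DD_mul] using mul_mem c a

lemma ww_mem (u : ℤ →₀ ℤ) : ww P u ∈ HH P S := by
  have j : ww P (single 0 1) ∈ HH P S := by
    have a := IP_mem (DD_mem hS 1 1)
    have b := IP_mem (DD_mem hS 1 (-1))
    have := inv_mem (mul_mem (mul_mem a.2 (inv_mem a.1)) (mul_mem b.2 (inv_mem b.1)))
    rwa [show (IQ P (DD P 1 1) * (IP P (DD P 1 1))⁻¹ * (IQ P (DD P 1 (-1)) *
      (IP P (DD P 1 (-1)))⁻¹))⁻¹ = ww P (single 0 1) by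
        funext i; ext x
        · simp [IQ, IP, DD, ff, ww, pj_single, jv, dl_apply, sub_eq_zero, add_eq_zero_iff_eq_neg]
          ring
        · simp [IQ, IP, DD, ff, ww]] at this
  have j2 : ∀ m, ww P (single m 1) ∈ HH P S := fun m => by
    have a := (IP_mem (DD_mem hS 1 m)).1
    have := mul_mem (mul_mem a j) (inv_mem a)
    rw [ww_sh, sh_single] at this
    simpa using this
  induction u using Finsupp.induction_linear with
  | zero => rw [ww_zero]; exact one_mem _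
  | add a b ha hb => rw [ww_add]; exact mul_mem ha hb
  | single m c =>
    induction c using Int.induction_on with
    | zero => rw [single_zero, ww_zero]; exact one_mem _
    | succ n ih => rw [single_add, ww_add]; exact mul_mem ih (j2 m)
    | pred n ih => rw [sub_eq_add_neg, single_add, ww_add, single_neg m 1, ww_neg]
                   exact mul_mem ih (inv_mem (j2 m))

lemma sing_mem (i : ℕ) {e : Wr (P i)} (he : e ∈ EE (P i)) : Pi.mulSingle i e ∈ HH P S := by
  let N := (HH P S).comap (MonoidHom.mulSingle (fun i => Wr (P i)) i)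
  have k : ∀ g ∈ alternatingGroup (ZMod (P i)), iP g ∈ N ∧ iV (dl 0) * iP g * (iV (dl 0))⁻¹ ∈ N := by
    intro g hg
    obtain ⟨a, b⟩ := IP_mem (hS.sing i g hg)
    constructor
    · rwa [show IP P (Pi.mulSingle i g) = (Pi.mulSingle i (iP g) : WW P) by
        funext j; by_cases h : j = i
        · subst h; simp [IP]
        · simp [IP, Pi.mulSingle_eq_of_ne h]] at a
    · rwa [show IQ P (Pi.mulSingle i g) = Pi.mulSingle i (iV (dl 0) * iP g * (iV (dl 0))⁻¹) by
        funext j; by_cases h : j = i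
        · subst h; simp [IQ, IP, ff]
        · simp [IQ, IP, Pi.mulSingle_eq_of_ne h]] at b
  have fV := span (vs N) 1 one_ne_zero fun s => by
    have a := k _ (tr_even (hS.h8 i) 1)
    have b := (k _ (tr_even (hS.h8 i) s.val)).1
    have := mul_mem (mul_mem b (mul_mem a.1 (inv_mem a.2))) (inv_mem b)
    rwa [show iP (aff (P i) 1 s.val) * (iP (aff (P i) 1 1) * (iV (dl 0) * iP (aff (P i) 1 1) *
      (iV (dl 0))⁻¹)⁻¹) * (iP (aff (P i) 1 s.val))⁻¹ = iV (dl (s + 1) - dl s) by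
        ext x
        · simp [dl_apply, ← sub_eq_add_neg]; simp only [sub_sub, sub_eq_zero]
        · simp] at this
  have := N.mul_mem (fV _ he.2) (k _ he.1).1
  rwa [show iV e.v * iP e.g = e by ext <;> simp] at this

lemma HH_kill (C : Subgroup (WW P)) (k : ℕ) (h0 : C.relIndex (HH P S) ≠ 0)
    (hk : C.relIndex (HH P S) < k) (h5 : 5 ≤ k) {h : WW P} (hh : h ∈ HH P S) : tr P k h ∈ C := by
  refine (show HH P S ≤ C.comap (tr P k) from (Subgroup.closure_le _).2 ?_) hh
  have key : ∀ φ : WP P →* WW P, (∀ g ∈ Subgroup.closure S, φ g ∈ HH P S) → ∀ s ∈ S,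
      φ (tr P k s) ∈ C := fun φ hφ s hs => by
    have le : (Subgroup.closure S).map φ ≤ HH P S := by rintro _ ⟨g, hg, rfl⟩; exact hφ g hg
    refine hS.kill (C.comap φ) k ?_ ?_ h5 s hs <;> rw [Subgroup.relIndex_comap]
    · exact fun e => h0 (Subgroup.relIndex_eq_zero_of_le_right le e)
    · exact (Subgroup.relIndex_le_of_le_right le h0).trans_lt hk
  rintro _ (⟨s, hs, rfl⟩ | ⟨s, hs, rfl⟩)
  · have := key (IP P) (fun g hg => (IP_mem hg).1) s hs
    rwa [show IP P (tr P k s) = tr P k (IP P s) by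
      funext i; by_cases h : P i ≤ k <;> simp [tr, IP, h]] at this
  · have := key (IQ P) (fun g hg => (IP_mem hg).2) s hs
    rwa [show IQ P (tr P k s) = tr P k (IQ P s) by
      funext i; by_cases h : P i ≤ k <;> simp [tr, IQ, IP, h]] at this

lemma uniq (i0 : ℕ) (u : ℤ →₀ ℤ) (e : ℤˣ) (k : ℤ) (h : ∀ i, i ≠ i0 →
    ((ww P u * IP P (DD P e k)) i).g = 1 ∧ ∀ x y, ((ww P u * IP P (DD P e k)) i).v x =
      ((ww P u * IP P (DD P e k)) i).v y) : u = 0 ∧ e = 1 ∧ k = 0 :=
  ⟨pj_const P hS.hi i0 u fun i hi x y => by simpa [ww, IP] using (h i hi).2 x y,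
    aff_triv P hS.hi i0 e k fun i hi => by simpa [ww, IP, DD] using (h i hi).1⟩

lemma LL_cen (i0 : ℕ) {l : WW P} (hl : l ∈ LL P)
    (h : ∀ i, i ≠ i0 → (l i).g = 1 ∧ ∀ x y, (l i).v x = (l i).v y) : l = 1 := by
  obtain ⟨u, e, k, rfl⟩ := hl
  obtain ⟨rfl, rfl, rfl⟩ := uniq hS i0 u e k h
  simp [ww_zero, DD_one]

end Pool.Agent.H.MP_216434_al
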