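import Pool.Agent.H.MP_216434_al.Wr

set_option autoImplicit false

namespace Pool.Agent.H.MP_216434_al

open Classical Equiv Equiv.Perm Finsupp

noncomputable def sh (e : ℤˣ) (k : ℤ) : (ℤ →₀ ℤ) →+ (ℤ →₀ ℤ) :=
  mapDomain.addMonoidHom fun m => e * m + k

lemma sh_single (e : ℤˣ) (k m c : ℤ) : sh e k (single m c) = single (e * m + k) c := mapDomain_single

lemma sh_apply (k : ℤ) (u : ℤ →₀ ℤ) (n : ℤ) : sh 1 k u n = u (n - k) := by
  have := mapDomain_apply (f := fun m : ℤ => ((1 : ℤˣ) : ℤ) * m + k) (fun a b e => by simpa using e)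
    u (n - k)
  rwa [Units.val_one, one_mul, sub_add_cancel] at this

noncomputable def ep : (ℤ →₀ ℤ) →+ ℤ := liftAddHom fun _ => AddMonoidHom.id ℤ

lemma ep_sh (e : ℤˣ) (k : ℤ) (u : ℤ →₀ ℤ) : ep (sh e k u) = ep u := by
  induction u using Finsupp.induction_linear with
  | zero => simp
  | add a b ha hb => simp [ha, hb]
  | single m c => simp [sh_single, ep]

lemma ep_zero (u : ℤ →₀ ℤ) (h : ep u = 0) : ∃ v, u = sh 1 1 v - v := by
  let B := (sh 1 1 - AddMonoidHom.id _).range
  have k0 : ∀ m c : ℤ, single (m + 1) c - single m c ∈ B := fun m c => ⟨single m c, by simp [sh_single]⟩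
  have k1 : ∀ m c : ℤ, single m c - single 0 c ∈ B := by
    intro m c
    induction m using Int.induction_on with
    | zero => simp
    | succ n ih => simpa using B.add_mem (k0 n c) ih
    | pred n ih => simpa using B.sub_mem ih (k0 (-n - 1) c)
  have k2 : ∀ u : ℤ →₀ ℤ, u - single 0 (ep u) ∈ B := by
    intro u
    induction u using Finsupp.induction_linear with
    | zero => simp
    | add a b ha hb => rw [map_add, single_add, add_sub_add_comm]; exact B.add_mem ha hb
    | single m c => simpa [ep] using k1 m c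
  obtain ⟨v, hv⟩ := k2 u
  exact ⟨v, by simpa [h] using hv.symm⟩

lemma sh_fix (u : ℤ →₀ ℤ) (h : sh 1 1 u = u) : u = 0 := by
  by_contra hc
  have hn := support_nonempty_iff.2 hc
  have := u.support.le_max' (u.support.max' hn + 1) (by
    rw [mem_support_iff, ← DFunLike.congr_fun h, sh_apply, add_sub_cancel_right]
    exact mem_support_iff.1 (u.support.max'_mem hn))
  omega

lemma unit_of (θ : (ℤ →₀ ℤ) →+ (ℤ →₀ ℤ)) (h : ∀ u, θ (sh 1 1 u) = sh 1 1 (θ u)) (u : ℤ →₀ ℤ)
    (hu : θ u = single 0 1) : ∃ r, θ (single 0 1) = single r 1 ∨ θ (single 0 1) = single r (-1) := by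
  set η := θ (single 0 1)
  have k1 : ∀ m n, θ (single m 1) n = η (n - m) := by
    intro m
    induction m using Int.induction_on with
    | zero => simp [η]
    | succ m ih =>
      intro n
      have := h (single m 1)
      rw [sh_single, Units.val_one, one_mul] at this
      rw [this, sh_apply, ih]; congr 1; ring
    | pred m ih =>
      intro n
      have := h (single (-m - 1) 1)
      rw [sh_single, Units.val_one, one_mul, sub_add_cancel] at this
      rw [show n - (-m - 1) = n + 1 - -m by ring, ← ih, this, sh_apply, add_sub_cancel_right]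
  have k2 : ∀ n, θ u n = ∑ m ∈ u.support, u m * η (n - m) := fun n => by
    conv_lhs => rw [← u.sum_single, Finsupp.sum, map_sum, finset_sum_apply]
    refine Finset.sum_congr rfl fun m _ => ?_
    rw [← k1, ← smul_single_one, map_zsmul]; simp
  have k3 : ∀ a ∈ u.support, ∀ b ∈ η.support, (∀ m ∈ u.support, m ≠ a → a + b - m ∉ η.support) →
      a + b = 0 ∧ u a * η b = 1 := fun a ha b hb e => by
    have := k2 (a + b)
    rw [Finset.sum_eq_single_of_mem a ha fun m hm h => by
      rw [notMem_support_iff.1 (e m hm h), mul_zero], hu, add_sub_cancel_left, single_apply] at this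
    split_ifs at this with h
    · exact ⟨h.symm, this.symm⟩
    · exact absurd this.symm (mul_ne_zero (mem_support_iff.1 ha) (mem_support_iff.1 hb))
  have u0 : u.support.Nonempty := support_nonempty_iff.2 fun e => by simp [e, eq_comm] at hu
  have e0 : η.support.Nonempty := support_nonempty_iff.2 fun e => by
    have := k2 0; simp [e, hu] at this
  obtain ⟨a1, a2⟩ := k3 _ (u.support.max'_mem u0) _ (η.support.max'_mem e0) fun m hm h h' => by
    have := u.support.le_max' m hm; have := η.support.le_max' _ h'; omega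
  obtain ⟨b1, -⟩ := k3 _ (u.support.min'_mem u0) _ (η.support.min'_mem e0) fun m hm h h' => by
    have := u.support.min'_le m hm; have := η.support.min'_le _ h'; omega
  have : η = single (η.support.max' e0) (η (η.support.max' e0)) := support_subset_singleton.1
    fun m hm => by
      have := η.support.le_max' m hm; have := η.support.min'_le m hm
      have := u.support.min'_le _ (u.support.max'_mem u0)
      rw [Finset.mem_singleton]; omega
  refine ⟨η.support.max' e0, ?_⟩
  rcases Int.eq_one_or_neg_one_of_mul_eq_one' a2 with h | h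
  · exact Or.inl (by rwa [h.2] at this)
  · exact Or.inr (by rwa [h.2] at this)

noncomputable def pj (p : ℕ) : (ℤ →₀ ℤ) →+ (ZMod p → ZMod p) :=
  liftAddHom fun m => zmultiplesHom _ fun x => jv p (x - m)

lemma pj_single (p : ℕ) (m c : ℤ) (x : ZMod p) : pj p (single m c) x = c * jv p (x - m) := by
  simp [pj]

lemma jv_neg {p : ℕ} (x : ZMod p) : jv p (-x) = jv p x := by
  simp only [jv, Pi.sub_apply, dl_apply, neg_eq_zero, neg_inj, neg_eq_iff_eq_neg]; ring

lemma pj_sh (p : ℕ) (e : ℤˣ) (k : ℤ) (u : ℤ →₀ ℤ) (x : ZMod p) :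
    pj p (sh e k u) x = pj p u ((aff p e k)⁻¹ x) := by
  induction u using Finsupp.induction_linear with
  | zero => simp
  | add a b ha hb => simp only [map_add, Pi.add_apply, ha, hb]
  | single m c =>
    rw [sh_single, pj_single, pj_single]
    rcases Int.units_eq_one_or e with rfl | rfl
    · congr 2; simp; ring
    · rw [← jv_neg]; congr 2; simp; ring

lemma cast_ne {p : ℕ} {s : ℤ} (h : s ≠ 0) (h' : |s| < p) : (s : ZMod p) ≠ 0 := fun e =>
  h (Int.eq_zero_of_abs_lt_dvd ((ZMod.intCast_zmod_eq_zero_iff_dvd s p).1 e) h')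

lemma jv_cast {p : ℕ} (t : ℤ) (h1 : 1 ≤ t) (h2 : t + 1 < p) : jv p t = if t = 1 then 1 else 0 := by
  have a : (t : ZMod p) ≠ 0 := cast_ne (by omega) (by rw [abs_lt]; omega)
  have b : (t : ZMod p) ≠ -1 := fun e =>
    cast_ne (p := p) (s := t + 1) (by omega) (by rw [abs_lt]; omega) (by simp [e])
  simp only [jv, Pi.sub_apply, dl_apply, a, b, if_false]
  split_ifs with h h' h'
  · simp
  · exact absurd (by simp [h]) (cast_ne (p := p) (s := t - 1) (by omega) (by rw [abs_lt]; omega))
  · simp [h'] at h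
  · simp

lemma big (P : ℕ → ℕ) (hi : Function.Injective P) (i0 B : ℕ) : ∃ i, i ≠ i0 ∧ B < P i := by
  obtain ⟨i, h⟩ := (((Set.finite_le_nat B).preimage hi.injOn).union (Set.finite_singleton i0)).exists_notMem
  exact ⟨i, fun e => h (Or.inr e), not_le.1 fun e => h (Or.inl e)⟩

lemma pj_const (P : ℕ → ℕ) (hi : Function.Injective P) (i0 : ℕ) (u : ℤ →₀ ℤ)
    (h : ∀ i, i ≠ i0 → ∀ x y, pj (P i) u x = pj (P i) u y) : u = 0 := by
  by_contra hc
  have hn := support_nonempty_iff.2 hc
  set M := u.support.max' hn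
  obtain ⟨i, h1, h2⟩ := big P hi i0 ((M - u.support.min' hn + 3).natAbs + (u M).natAbs)
  have k : ∀ t : ℤ, 1 ≤ t → t ≤ 2 → pj (P i) u ((M + t : ℤ) : ZMod _) =
      ∑ m ∈ u.support, (u m : ZMod (P i)) * if M + t - m = 1 then 1 else 0 := fun t t1 t2 => by
    conv_lhs => rw [← u.sum_single, Finsupp.sum, map_sum, Finset.sum_apply]
    refine Finset.sum_congr rfl fun m hm => ?_
    have := u.support.le_max' m hm; have := u.support.min'_le m hm
    rw [pj_single, ← Int.cast_sub, jv_cast _ (by omega) (by omega)]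
  have := h i h1 ((M + 1 : ℤ) : ZMod _) ((M + 2 : ℤ) : ZMod _)
  rw [k 1 le_rfl one_le_two, k 2 one_le_two le_rfl,
    Finset.sum_eq_single_of_mem M (u.support.max'_mem hn) fun m _ h => by
      rw [if_neg (by omega), mul_zero], Finset.sum_eq_zero fun m hm => by
      have := u.support.le_max' m hm
      rw [if_neg (by omega), mul_zero]] at this
  exact cast_ne (p := P i) (s := u M) (mem_support_iff.1 (u.support.max'_mem hn))
    (by rw [Int.abs_eq_natAbs]; omega) (by simpa using this)

lemma aff_triv (P : ℕ → ℕ) (hi : Function.Injective P) (i0 : ℕ) (e : ℤˣ) (k : ℤ)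
    (h : ∀ i, i ≠ i0 → aff (P i) e k = 1) : e = 1 ∧ k = 0 := by
  obtain ⟨i, h1, h2⟩ := big P hi i0 (k.natAbs + 2)
  have a := Equiv.congr_fun (h i h1) 0
  have b := Equiv.congr_fun (h i h1) 1
  have k0 : k = 0 := by
    by_contra hc
    exact cast_ne (p := P i) hc (by rw [Int.abs_eq_natAbs]; omega) (by simpa using a)
  refine ⟨(Int.units_eq_one_or e).resolve_right fun e1 => ?_, k0⟩
  refine cast_ne (p := P i) (s := 2) (by omega) (by rw [abs_lt]; omega) ?_
  simp [e1, k0] at b
  push_cast; linear_combination -b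

end Pool.Agent.H.MP_216434_al
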