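import Pool.Agent.H.MP_216434_al.Perm

set_option autoImplicit false

namespace Pool.Agent.H.MP_216434_al

open Classical Equiv Equiv.Perm

lemma transfix {H Y : Type} [Group H] (hH : Group.FG H) (φ : H →* Perm Y) (z : ℕ → H)
    (zc : ∀ n h, z n * h = h * z n) (zt : ∀ n, IsOfFinOrder (z n))
    (zf : ∀ y, Function.Injective fun n => φ (z n) y) (M : Set Y)
    (hM : ∀ h, {y | ¬ (φ h y ∈ M ↔ y ∈ M)}.Finite) :
    ∃ M' : Set Y, (∀ h y, φ h y ∈ M' ↔ y ∈ M') ∧ {y | ¬ (y ∈ M' ↔ y ∈ M)}.Finite := by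
  obtain ⟨S, hS, fS⟩ := Group.fg_iff.1 hH
  have ml : ∀ g h y, φ g (φ h y) = φ (g * h) y := fun g h y => by simp
  have inv : ∀ C : Set Y, (∀ s ∈ S, ∀ y, φ s y ∈ C ↔ y ∈ C) → ∀ h y, φ h y ∈ C ↔ y ∈ C := by
    intro C hC h
    induction (hS ▸ Subgroup.mem_top h : h ∈ Subgroup.closure S) using Subgroup.closure_induction with
    | mem s hs => exact hC s hs
    | one => simp
    | mul a b _ _ ha hb => intro y; rw [← ml, ha, hb]
    | inv a _ ha => intro y; rw [← ha, ml]; simp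
  let B : Set Y := ⋃ s ∈ S, ({y | ¬ (φ s y ∈ M ↔ y ∈ M)} ∪ {y | ¬ (φ s⁻¹ y ∈ M ↔ y ∈ M)})
  have fB : B.Finite := fS.biUnion fun s _ => (hM s).union (hM _)
  have hB : ∀ s ∈ S, ∀ y, ¬ (φ s y ∈ M ↔ y ∈ M) → y ∈ B ∧ φ s y ∈ B := fun s hs y h =>
    ⟨Set.mem_biUnion hs (Or.inl h), Set.mem_biUnion hs (Or.inr (by
      simp only [Set.mem_setOf_eq, ml, inv_mul_cancel, map_one, one_apply]; tauto))⟩
  let O : Y → Set Y := fun y => Set.range fun h => φ h y
  have o1 : ∀ y h x, φ h x ∈ O y ↔ x ∈ O y := fun y h x =>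
    ⟨fun ⟨g, e⟩ => ⟨h⁻¹ * g, by simp only [← ml]; simp only at e; rw [e, ml]; simp⟩,
      fun ⟨g, e⟩ => ⟨h * g, by simp only [← ml]; simp only at e; rw [e]⟩⟩
  have o0 : ∀ y, y ∈ O y := fun y => ⟨1, by simp⟩
  have o2 : ∀ y x, x ∈ O y → O x = O y := by
    rintro y _ ⟨h, rfl⟩
    ext w
    exact ⟨fun ⟨g, e⟩ => e ▸ (o1 y g _).2 ⟨h, rfl⟩, fun ⟨g, e⟩ => ⟨g * h⁻¹, by simp [← e]⟩⟩
  have main : ∀ y0 ∈ B, (O y0 ∩ M).Finite ∨ (O y0 \ M).Finite := by
    intro y0 hy0
    choose! k hk using fun b (h : b ∈ O y0) => h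
    let F : Set Y := ⋃ b ∈ B, {y | ¬ (φ (k b) y ∈ M ↔ y ∈ M)}
    have fF : F.Finite := fB.biUnion fun b _ => hM _
    have f1 : {n | φ (z n) y0 ∈ F ∪ B}.Finite := (fF.union fB).preimage (zf y0).injOn
    have f2 : {n | φ (z n)⁻¹ y0 ∈ F}.Finite := by
      refine (fF.biUnion fun f _ => (Set.finite_singleton y0).preimage (zf f).injOn).subset ?_
      exact fun n hn => Set.mem_biUnion hn (by simp)
    obtain ⟨n, hn⟩ := (f1.union f2).exists_notMem
    simp only [Set.mem_union, Set.mem_setOf_eq, not_or] at hn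
    obtain ⟨⟨n1, n2⟩, n3⟩ := hn
    have zc' : ∀ h, (z n)⁻¹ * h = h * (z n)⁻¹ := fun h => (Commute.inv_left (zc n h)).eq
    have hP : ∀ b ∈ B, b ∈ O y0 → (φ (z n) b ∈ M ↔ φ (z n) y0 ∈ M) := fun b hb ho => by
      by_contra hc
      refine n1 (Set.mem_biUnion hb ?_)
      rw [← hk b ho] at hc
      simpa only [Set.mem_setOf_eq, ml, zc] using hc
    have hQ : ∀ b ∈ B, b ∈ O y0 → (φ (z n)⁻¹ b ∈ M ↔ φ (z n)⁻¹ y0 ∈ M) := fun b hb ho => by
      by_contra hc
      refine n3 (Set.mem_biUnion hb ?_)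
      rw [← hk b ho] at hc
      simpa only [Set.mem_setOf_eq, ml, zc'] using hc
    have hC := inv {y | y ∈ O y0 ∧ ¬ (y ∈ M ↔ φ (z n) y0 ∈ M) ∧
        ¬ (φ (z n)⁻¹ y ∈ M ↔ φ (z n)⁻¹ y0 ∈ M)} fun s hs y => by
      simp only [Set.mem_setOf_eq, o1]
      refine and_congr_right fun ho => ?_
      by_cases c1 : φ s y ∈ M ↔ y ∈ M
      · by_cases c2 : φ s (φ (z n)⁻¹ y) ∈ M ↔ φ (z n)⁻¹ y ∈ M
        · rw [ml, zc', ← ml, c1, c2]
        · obtain ⟨b1, b2⟩ := hB s hs _ c2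
          have p1 := hP _ b1 ((o1 _ _ _).2 ho)
          have p2 := hP _ b2 ((o1 _ _ _).2 ((o1 _ _ _).2 ho))
          simp only [ml, zc, mul_inv_cancel, inv_mul_cancel_right, map_one, one_apply,
            inv_mul_cancel] at p1 p2
          tauto
      · obtain ⟨b1, b2⟩ := hB s hs _ c1
        have p1 := hQ _ b1 ho
        have p2 := hQ _ b2 ((o1 _ _ _).2 ho)
        tauto
    have hC' : ∀ y ∈ O y0, ¬ (y ∈ M ↔ φ (z n) y0 ∈ M) →
        (φ (z n)⁻¹ y ∈ M ↔ φ (z n)⁻¹ y0 ∈ M) := by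
      rintro _ ⟨h, rfl⟩ h1
      by_contra h2
      exact ((hC h y0).1 ⟨⟨h, rfl⟩, h1, h2⟩).2.2 Iff.rfl
    by_cases c : φ (z n) y0 ∈ M ↔ φ (z n)⁻¹ y0 ∈ M
    · by_cases c' : φ (z n) y0 ∈ M
      · exact Or.inr ((hM (z n)⁻¹).subset fun y hy => by
          have := hC' y hy.1; have := hy.2; simp only [Set.mem_setOf_eq]; tauto)
      · exact Or.inl ((hM (z n)⁻¹).subset fun y hy => by
          have := hC' y hy.1; have := hy.2; simp only [Set.mem_setOf_eq]; tauto)
    · exfalso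
      have d1 : ∀ m : ℕ, ∀ y ∈ O y0, ¬ (y ∈ M ↔ φ (z n) y0 ∈ M) →
          ¬ (φ ((z n)⁻¹ ^ m) y ∈ M ↔ φ (z n) y0 ∈ M) := by
        intro m y hy h
        induction m with
        | zero => simpa using h
        | succ m ih =>
          have := hC' _ ((o1 _ _ _).2 hy) ih
          rw [pow_succ', ← ml]; tauto
      have d2 : ∀ y ∈ O y0, φ (z n) y ∈ M ↔ y ∈ M := by
        intro y hy
        obtain ⟨m, m0, hm⟩ := isOfFinOrder_iff_pow_eq_one.1 (zt n)
        have a1 := d1 1 _ ((o1 _ (z n) _).2 hy)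
        have a2 := d1 (m - 1) y hy
        have : (z n)⁻¹ ^ (m - 1) = z n := by
          rw [inv_pow, inv_eq_iff_mul_eq_one, ← pow_succ, Nat.sub_add_cancel m0, hm]
        rw [this] at a2
        simp only [pow_one, ml, inv_mul_cancel, map_one, one_apply] at a1
        tauto
      obtain ⟨s, hs, h⟩ := Set.mem_iUnion₂.1 hy0
      refine n2 (Set.mem_biUnion hs ?_)
      simp only [Set.mem_union, Set.mem_setOf_eq] at h ⊢
      rwa [ml, ml, ← zc, ← zc, ← ml, ← ml, d2 _ ⟨_, rfl⟩, d2 _ ⟨_, rfl⟩, d2 _ (o0 _)]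
  have meet : ∀ y x, x ∈ O y → ¬ (x ∈ M ↔ y ∈ M) → ∃ b ∈ B, O b = O y := by
    rintro y _ ⟨h, rfl⟩ hx
    by_contra hc
    push Not at hc
    have := inv (O y ∩ M) (fun s hs w => by
      simp only [Set.mem_inter_iff, o1]
      refine and_congr_right fun ho => ?_
      by_contra h2
      exact hc w (hB s hs w h2).1 (o2 _ _ ho)) h y
    simp only [Set.mem_inter_iff, o1, o0, true_and] at this
    exact hx this
  refine ⟨{y | (O y \ M).Finite}, fun h y => by
    simp only [Set.mem_setOf_eq]; rw [o2 y _ ⟨h, rfl⟩], ?_⟩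
  refine (fB.biUnion (t := fun b => {y | (y ∈ O b ∩ M ∧ (O b ∩ M).Finite) ∨
    (y ∈ O b \ M ∧ (O b \ M).Finite)}) fun b _ => ?_).subset fun y hy => ?_
  · by_cases h1 : (O b ∩ M).Finite <;> by_cases h2 : (O b \ M).Finite
    · exact (h1.union h2).subset fun y hy => hy.imp And.left And.left
    · exact h1.subset fun y hy => hy.elim And.left fun h => absurd h.2 h2
    · exact h2.subset fun y hy => hy.elim (fun h => absurd h.2 h1) And.left
    · exact Set.finite_empty.subset fun y hy => hy.elim (fun h => h1 h.2) fun h => h2 h.2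
  · simp only [Set.mem_setOf_eq] at hy
    by_cases h1 : y ∈ M
    · have h2 : ¬ (O y \ M).Finite := by tauto
      obtain ⟨x, hx⟩ := Set.Infinite.nonempty h2
      obtain ⟨b, b1, b2⟩ := meet y x hx.1 (by have := hx.2; tauto)
      exact Set.mem_biUnion b1 (Or.inl ⟨⟨b2 ▸ o0 y, h1⟩, (main b b1).resolve_right (b2 ▸ h2)⟩)
    · have h2 : (O y \ M).Finite := by tauto
      have : (O y).Infinite := Set.infinite_of_injective_forall_mem (zf y) fun n => ⟨_, rfl⟩
      obtain ⟨x, hx⟩ := (this.diff h2).nonempty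
      obtain ⟨b, b1, b2⟩ := meet y x hx.1 (by have := hx.1; have := hx.2; simp at *; tauto)
      exact Set.mem_biUnion b1 (Or.inr ⟨⟨b2 ▸ o0 y, h1⟩, b2 ▸ h2⟩)

def OF (G : Type) [Group G] : Prop :=
  ∃ Φ : Set (MulAut G), Φ.Finite ∧ ∀ α : MulAut G, ∃ β ∈ Φ, ∃ g, ∀ x, α x = g * β x * g⁻¹

lemma OF.fin {G : Type} [Group G] (h : OF G) :
    Finite (MulAut G ⧸ (MulAut.conj : G →* MulAut G).range) := by
  obtain ⟨Φ, h1, h2⟩ := h
  refine Set.finite_univ_iff.1 ((h1.image QuotientGroup.mk).subset fun q _ => ?_)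
  obtain ⟨α, rfl⟩ := QuotientGroup.mk_surjective q
  obtain ⟨β, b, g, hg⟩ := h2 α
  refine ⟨β, b, QuotientGroup.eq.2 ⟨β.symm g, MulEquiv.ext fun x => β.injective ?_⟩⟩
  simp [hg]

lemma OF.prod {G : Type} [Group G] [Nontrivial G] (h : OF G)
    (hm : ∀ N K : Subgroup G, N.Normal → K.Normal → N ≠ ⊥ → K ≠ ⊥ →
      ∃ a ∈ N, ∃ b ∈ K, a * b ≠ b * a) : OF (G × G) := by
  obtain ⟨Φ, h1, h2⟩ := h
  have key : ∀ (α : MulAut (G × G)) (p : G × G →* G), Function.Surjective p →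
      (∀ x, p (α (x, 1)) = 1) ∨ (∀ x, p (α (1, x)) = 1) := by
    intro α p hp
    by_contra hc
    rw [not_or] at hc
    have nm : ∀ i : G →* G × G, i.range.Normal → ¬ (∀ x, p (α (i x)) = 1) →
        (((i.range.map α.toMonoidHom).map p).Normal ∧ (i.range.map α.toMonoidHom).map p ≠ ⊥) :=
      fun i hi hn => ⟨(hi.map _ α.surjective).map _ hp, fun e => hn fun x =>
        (Subgroup.eq_bot_iff_forall _).1 e _ ⟨_, ⟨_, ⟨x, rfl⟩, rfl⟩, rfl⟩⟩
    obtain ⟨a1, a2⟩ := nm (MonoidHom.inl G G) ⟨by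
      rintro _ ⟨x, rfl⟩ g; exact ⟨g.1 * x * g.1⁻¹, by ext <;> simp⟩⟩ hc.1
    obtain ⟨b1, b2⟩ := nm (MonoidHom.inr G G) ⟨by
      rintro _ ⟨x, rfl⟩ g; exact ⟨g.2 * x * g.2⁻¹, by ext <;> simp⟩⟩ hc.2
    obtain ⟨_, ⟨_, ⟨_, ⟨x, rfl⟩, rfl⟩, rfl⟩, _, ⟨_, ⟨_, ⟨y, rfl⟩, rfl⟩, rfl⟩, e⟩ := hm _ _ a1 b1 a2 b2
    apply e
    simp only [← map_mul]
    simp
  have split : ∀ α : MulAut (G × G), (∀ x, (α (1, x)).1 = 1) → (∀ x, (α (x, 1)).2 = 1) →
      ∃ β γ : MulAut G, α = MulEquiv.prodCongr β γ := by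
    intro α a1 a2
    have e : ∀ x y, α (x, y) = ((α (x, 1)).1, (α (1, y)).2) := fun x y => by
      rw [show (x, y) = (x, 1) * (1, y) by simp, map_mul]; ext <;> simp [a1, a2]
    let f : G →* G := (MonoidHom.fst G G).comp (α.toMonoidHom.comp (MonoidHom.inl G G))
    let g : G →* G := (MonoidHom.snd G G).comp (α.toMonoidHom.comp (MonoidHom.inr G G))
    have b : Function.Bijective (Prod.map f g) := by
      have : Prod.map f g = α := funext fun x => (e x.1 x.2).symm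
      rw [this]; exact α.bijective
    rw [Prod.map_bijective] at b
    exact ⟨MulEquiv.ofBijective f b.1, MulEquiv.ofBijective g b.2, MulEquiv.ext fun x => e x.1 x.2⟩
  let P : Set (MulAut (G × G)) := Set.image2 MulEquiv.prodCongr Φ Φ
  have fP : P.Finite := h1.image2 _ h1
  have k2 : ∀ β γ : MulAut G, ∃ δ ∈ P, ∃ g, ∀ x, MulEquiv.prodCongr β γ x = g * δ x * g⁻¹ := by
    intro β γ
    obtain ⟨β', b1, g, hg⟩ := h2 β
    obtain ⟨γ', c1, k, hk⟩ := h2 γ
    exact ⟨_, ⟨β', b1, γ', c1, rfl⟩, (g, k), fun x => Prod.ext (hg x.1) (hk x.2)⟩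
  refine ⟨P ∪ (fun δ => δ * (MulEquiv.prodComm : MulAut (G × G))) '' P, fP.union (fP.image _),
    fun α => ?_⟩
  obtain ⟨x0, hx0⟩ := exists_ne (1 : G)
  rcases key α (MonoidHom.fst G G) Prod.fst_surjective with a | a <;>
    rcases key α (MonoidHom.snd G G) Prod.snd_surjective with b | b
  · exact absurd (congrArg Prod.fst (α.injective
      ((Prod.ext (a x0) (b x0)).trans (map_one α).symm))) hx0
  · obtain ⟨β, γ, e⟩ := split (α * (MulEquiv.prodComm : MulAut (G × G))) a b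
    obtain ⟨δ, d, g, hg⟩ := k2 β γ
    exact ⟨_, Or.inr ⟨δ, d, rfl⟩, g, fun x => by rw [← e] at hg; exact hg x.swap⟩
  · obtain ⟨β, γ, e⟩ := split α a b
    obtain ⟨δ, d, g, hg⟩ := k2 β γ
    exact ⟨_, Or.inl d, g, e ▸ hg⟩
  · exact absurd (congrArg Prod.snd (α.injective
      ((Prod.ext (a x0) (b x0)).trans (map_one α).symm))) hx0

lemma fin_normal {G : Type} [Group G] (hG : Group.FG G) (n : ℕ) :
    {N : Subgroup G | N.Normal ∧ N.index ≠ 0 ∧ N.index ≤ n}.Finite := by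
  obtain ⟨S, hS, fS⟩ := Group.fg_iff.1 hG
  haveI := fS.to_subtype
  haveI : ∀ m, Finite (G →* Perm (Fin m)) := fun m =>
    Finite.of_injective (fun f (s : S) => f s) fun f g e =>
      MonoidHom.eq_of_eqOn_dense hS fun s hs => congrFun e ⟨s, hs⟩
  refine ((Set.finite_le_nat n).biUnion fun m _ =>
    Set.finite_range fun f : G →* Perm (Fin m) => f.ker).subset ?_
  rintro N ⟨h1, h2, h3⟩
  haveI : Finite (G ⧸ N) := Nat.finite_of_card_ne_zero h2
  refine Set.mem_biUnion h3 ⟨(Finite.equivFinOfCardEq (α := G ⧸ N) (n := N.index) rfl).permCongrHom.toMonoidHom.comp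
    (MulAction.toPermHom G (G ⧸ N)), ?_⟩
  simp only
  rw [← MonoidHom.comap_ker, (MonoidHom.ker_eq_bot_iff _).2 (MulEquiv.injective _),
    MonoidHom.comap_bot, ← Subgroup.normalCore_eq_ker, Subgroup.normalCore_eq_self]

section
variable (H X : Type) [Group H] [MulAction H X]

def AA : Subgroup (Perm X) :=
  ((QuotientGroup.mk' (FS X)).comp (MulAction.toPermHom H X)).range.comap (QuotientGroup.mk' (FS X))

lemma FS_le : FS X ≤ AA H X := fun g hg =>
  ⟨1, by rw [map_one, eq_comm]; exact (QuotientGroup.eq_one_iff g).2 hg⟩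

def io : H →* AA H X := (MulAction.toPermHom H X).codRestrict _ fun h => ⟨h, rfl⟩

variable {H X} (hf : ∀ h : H, MulAction.toPermHom H X h ∈ FS X → h = 1)

noncomputable def pr : AA H X →* H :=
  (MonoidHom.ofInjective (f := (QuotientGroup.mk' (FS X)).comp (MulAction.toPermHom H X))
    ((injective_iff_map_eq_one _).2 fun h e =>
      hf h ((QuotientGroup.eq_one_iff _).1 e))).symm.toMonoidHom.comp
    (((QuotientGroup.mk' (FS X)).comp (AA H X).subtype).codRestrict _ fun g => g.2)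

lemma pr_spec (g : AA H X) : QuotientGroup.mk' (FS X) (MulAction.toPermHom H X (pr hf g)) =
    QuotientGroup.mk' (FS X) g.1 :=
  MonoidHom.apply_ofInjective_symm
    (f := (QuotientGroup.mk' (FS X)).comp (MulAction.toPermHom H X))
    ((injective_iff_map_eq_one _).2 fun h e => hf h ((QuotientGroup.eq_one_iff _).1 e)) ⟨_, g.2⟩

lemma pr_one (g : AA H X) : pr hf g = 1 ↔ g.1 ∈ FS X := by
  have := pr_spec hf g
  constructor
  · intro h
    rw [h, map_one, map_one, eq_comm] at this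
    exact (QuotientGroup.eq_one_iff _).1 this
  · intro h
    exact hf _ ((QuotientGroup.eq_one_iff _).1 (this.trans ((QuotientGroup.eq_one_iff _).2 h)))

lemma pr_rem (g : AA H X) : (g * (io H X (pr hf g))⁻¹).1 ∈ FS X := by
  refine (QuotientGroup.eq_one_iff _).1 ?_
  have := pr_spec hf g
  show QuotientGroup.mk' (FS X) (g.1 * (MulAction.toPermHom H X (pr hf g))⁻¹) = 1
  rw [map_mul, map_inv, this, mul_inv_cancel]

lemma pr_io (h : H) : pr hf (io H X h) = h := by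
  have := pr_rem hf (io H X h)
  rw [← map_inv, ← map_mul] at this
  exact (mul_inv_eq_one.1 (hf _ this)).symm

include hf in
lemma AA_fg (hH : Group.FG H) [MulAction.IsPretransitive H X] (x0 : X) : Group.FG (AA H X) := by
  obtain ⟨S, hS, fS⟩ := Group.fg_iff.1 hH
  refine (Group.fg_iff_subgroup_fg _).2 ((Subgroup.fg_iff _).2
    ⟨MulAction.toPermHom H X '' S ∪ (fun s => swap x0 (s • x0)) '' S, le_antisymm ?_ ?_,
      (fS.image _).union (fS.image _)⟩)
  · rw [Subgroup.closure_le]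
    rintro _ (⟨s, -, rfl⟩ | ⟨s, -, rfl⟩)
    exacts [⟨s, rfl⟩, FS_le H X (swap_mem _ _)]
  set K := Subgroup.closure (MulAction.toPermHom H X '' S ∪ (fun s => swap x0 (s • x0)) '' S)
  have k1 : ∀ h, MulAction.toPermHom H X h ∈ K := fun h =>
    (show (⊤ : Subgroup H) ≤ K.comap _ from hS ▸ (Subgroup.closure_le _).2 fun s hs =>
      Subgroup.subset_closure (Or.inl ⟨s, hs, rfl⟩)) (Subgroup.mem_top h)
  have k2 : ∀ (h : H) a b, swap a b ∈ K → swap (h • a) (h • b) ∈ K := fun h a b e => by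
    have := swap_apply_apply (MulAction.toPermHom H X h) a b
    exact this ▸ mul_mem (mul_mem (k1 h) e) (inv_mem (k1 h))
  have k3 : ∀ h : H, swap x0 (h • x0) ∈ K := by
    intro h
    induction (hS ▸ Subgroup.mem_top h : h ∈ Subgroup.closure S) using Subgroup.closure_induction with
    | mem s hs => exact Subgroup.subset_closure (Or.inr ⟨s, hs, rfl⟩)
    | one => rw [one_smul, swap_self]; exact one_mem _
    | mul a b _ _ ha hb => exact SubmonoidClass.swap_mem_trans K ha (mul_smul a b x0 ▸ k2 a _ _ hb)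
    | inv a _ ha => have := k2 a⁻¹ _ _ ha; rwa [inv_smul_smul, swap_comm] at this
  have k4 : FS X ≤ K := (Subgroup.closure_le _).2 (by
    rintro _ ⟨a, b, -, rfl⟩
    obtain ⟨g, rfl⟩ := MulAction.exists_smul_eq H x0 a
    obtain ⟨h, rfl⟩ := MulAction.exists_smul_eq H x0 b
    exact SubmonoidClass.swap_mem_trans K (by rw [swap_comm]; exact k3 g) (k3 h))
  intro g hg
  have := mul_mem (k4 (pr_rem hf ⟨g, hg⟩)) (k1 (pr hf ⟨g, hg⟩))
  simpa [io] using this

include hf in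
theorem AA_of [Infinite X] (hH : Group.FG H) [MulAction.IsPretransitive H X] (x0 : X) (z : ℕ → H)
    (zc : ∀ n h, z n * h = h * z n) (zt : ∀ n, IsOfFinOrder (z n))
    (zf : ∀ y : X, Function.Injective fun n => z n • y) (Φ : Set (MulAut H)) (fΦ : Φ.Finite)
    (hΦ : ∀ α : MulAut H, (∀ h, α h • x0 = x0 ↔ h • x0 = x0) →
      ∃ l, l • x0 = x0 ∧ MulAut.conj l * α ∈ Φ) : OF (AA H X) := by
  refine ⟨⋃ β ∈ Φ, {γ | ∃ σ : Perm X, (∀ g, (γ g).1 = σ * g.1 * σ⁻¹) ∧
    ∀ h, σ (h • x0) = β h • x0}, fΦ.biUnion fun β _ => Set.Subsingleton.finite ?_, fun α => ?_⟩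
  · rintro γ ⟨σ, a1, a2⟩ γ' ⟨σ', b1, b2⟩
    have : σ = σ' := Equiv.ext fun x => by
      obtain ⟨g, rfl⟩ := MulAction.exists_smul_eq H x0 x
      rw [a2, b2]
    exact MulEquiv.ext fun g => Subtype.ext (by rw [a1, b1, this])
  have fs : ∀ α : MulAut (AA H X), ∀ g, pr hf g = 1 → pr hf (α g) = 1 := fun α g hg => by
    obtain ⟨σ, hσ⟩ := aut_conj (FS_le H X) α
    rw [pr_one] at *
    rw [hσ]
    exact (inferInstance : (FS X).Normal).conj_mem _ hg σ
  have fs' : ∀ α : MulAut (AA H X), ∀ g, pr hf (α (io H X (pr hf g))) = pr hf (α g) := fun α g => by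
    have := fs α _ ((pr_one hf _).2 (pr_rem hf g))
    rw [map_mul, map_mul, map_inv, map_inv, mul_inv_eq_one] at this
    exact this.symm
  obtain ⟨σ, hσ⟩ := aut_conj (FS_le H X) α
  let a : MulAut H :=
    { toFun := fun h => pr hf (α (io H X h))
      invFun := fun h => pr hf (α⁻¹ (io H X h))
      left_inv := fun h => by simp only [fs']; simp [pr_io]
      right_inv := fun h => by simp only [fs']; simp [pr_io]
      map_mul' := by simp }
  let φ : H →* Perm (X × X) := MonoidHom.mk' (fun h => Equiv.prodCongr (MulAction.toPerm h)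
    (MulAction.toPerm (a h))) fun g h => Equiv.ext fun x => Prod.ext (mul_smul _ _ _) (by simp [mul_smul])
  obtain ⟨M, m1, m2⟩ := transfix hH φ z zc zt (fun y n m e => zf y.1 (congrArg Prod.fst e))
    {y | y.2 = σ y.1} fun h => by
      have f1 := mem_FS.1 (inv_mem (pr_rem hf (α (io H X h))))
      have f2 : {x | σ (h • x) ≠ a h • σ x}.Finite := by
        refine (f1.preimage (f := fun x => σ (h • x))
          (σ.injective.comp (MulAction.injective h)).injOn).subset fun x hx e => hx ?_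
        refine e.symm.trans ?_
        simp [hσ, io, a]
      refine ((f2.image fun x => (x, σ x)).union
        (f2.image fun x => (x, (a h)⁻¹ • σ (h • x)))).subset ?_
      rintro ⟨x, y⟩ hy
      replace hy : ¬ (a h • y = σ (h • x) ↔ y = σ x) := hy
      have : x ∈ {x | σ (h • x) ≠ a h • σ x} := fun e => hy (by rw [e, smul_left_cancel_iff])
      by_cases e : y = σ x
      · exact Or.inl ⟨x, this, by rw [e]⟩
      · have : a h • y = σ (h • x) := by tauto
        exact Or.inr ⟨x, by assumption, by simp [← this]⟩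
  replace m1 : ∀ h x y, (h • x, a h • y) ∈ M ↔ (x, y) ∈ M := fun h x y => m1 h (x, y)
  have m3 := (m2.image Prod.fst).union (m2.image fun y => σ⁻¹ y.2)
  obtain ⟨x1, hx1⟩ := m3.exists_notMem
  simp only [Set.mem_union, Set.mem_image, not_or, not_exists, not_and, Set.mem_setOf_eq] at hx1
  have c1 : ∀ y, (x1, y) ∈ M ↔ y = σ x1 := fun y => by
    by_contra hc; exact hx1.1 (x1, y) hc rfl
  have c2 : ∀ x, (x, σ x1) ∈ M ↔ x = x1 := fun x => by
    by_contra hc; exact hx1.2 (x, σ x1) (by simpa [eq_comm] using hc) (by simp)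
  have st : ∀ h, a h • σ x1 = σ x1 ↔ h • x1 = x1 := fun h => by
    rw [← c1, ← c2]
    constructor
    · intro e
      have := (m1 h x1 (σ x1)).2 ((c1 _).2 rfl)
      rwa [(c1 _).1 e] at this
    · intro e
      have := (m1 h x1 (σ x1)).2 ((c1 _).2 rfl)
      rwa [(c2 _).1 e] at this
  choose k hk using fun x => MulAction.exists_smul_eq H x1 x
  have f1 : ∀ h, a (k (h • x1)) • σ x1 = a h • σ x1 := fun h => by
    rw [← inv_smul_eq_iff, smul_smul, ← map_inv, ← map_mul, st, mul_smul, hk, inv_smul_smul]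
  let σ' : Perm X := Equiv.ofBijective (fun x => a (k x) • σ x1) ⟨fun x y e => by
    simp only at e
    rwa [← inv_smul_eq_iff, smul_smul, ← map_inv, ← map_mul, st, mul_smul, hk, inv_smul_eq_iff,
      hk] at e, fun y => by
    obtain ⟨g, rfl⟩ := MulAction.exists_smul_eq H (σ x1) y
    exact ⟨a⁻¹ g • x1, by simp only [f1]; simp⟩⟩
  have f2 : σ' * σ⁻¹ ∈ FS X := by
    refine mem_FS.2 ((m2.image fun y => σ y.1).subset fun x hx => ⟨(σ⁻¹ x, σ' (σ⁻¹ x)), fun e => hx ?_,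
      by simp⟩)
    have := (m1 (k (σ⁻¹ x)) x1 (σ x1)).2 ((c1 _).2 rfl)
    rw [hk] at this
    simpa using e.1 this
  obtain ⟨u, rfl⟩ := MulAction.exists_smul_eq H x0 x1
  obtain ⟨v, hv⟩ := MulAction.exists_smul_eq H x0 (σ (u • x0))
  obtain ⟨l, l1, l2⟩ := hΦ (MulAut.conj v⁻¹ * a * MulAut.conj u) fun h => by
    simp only [MulAut.mul_apply, MulAut.conj_apply, inv_inv]
    rw [mul_smul, mul_smul, inv_smul_eq_iff, hv, st, mul_smul, mul_smul, inv_smul_smul,
      smul_left_cancel_iff]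
  let g : AA H X := io H X (l * v⁻¹ * a u) * ⟨_, FS_le H X f2⟩
  refine ⟨MulAut.conj g * α, Set.mem_biUnion l2 ⟨g.1 * σ, fun x => by simp [hσ, mul_assoc],
    fun h => ?_⟩, g⁻¹, fun x => by simp [mul_assoc]⟩
  have e1 : σ' (h • x0) = a (h * u⁻¹) • v • x0 := by rw [hv, ← f1, mul_smul, inv_smul_smul]; rfl
  have e2 : l⁻¹ • x0 = x0 := inv_smul_eq_iff.2 l1.symm
  simp [g, io, e1, mul_smul, e2]

end

end Pool.Agent.H.MP_216434_al
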