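import Pool.Agent.H.MP_216434_al.Rig
import Pool.Agent.H.MP_216434_al.Out

set_option autoImplicit false

namespace Pool.Agent.H.MP_216434_al

open Classical Equiv Equiv.Perm Pool.Agent.H.MP_fcd401_al

section
variable {X : Type} [Infinite X] {A : Subgroup (Perm X)} (hA : FS X ≤ A)

lemma fs_q {Q : Type} [Group Q] (q : A →* Q) (g : A) (hg : g ≠ 1) (hq : q g = 1) {a b : X}
    (hab : a ≠ b) : (∀ s : A, s.1 ∈ FS X → q s = 1 ∨ q s = q (sA hA a b)) ∧
      ∀ x, q (sA hA a b) * q x = q x * q (sA hA a b) := by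
  refine ⟨fun ⟨s, hs'⟩ hs => ?_, fun x => ?_⟩
  · replace hs : s ∈ Subgroup.closure {σ : Perm X | σ.IsSwap} := hs
    induction hs using Subgroup.closure_induction with
    | mem s hs =>
      obtain ⟨c, d, hcd, rfl⟩ := hs
      exact Or.inr (mono hA q g hg hq hcd hab)
    | one => exact Or.inl (map_one q)
    | mul s t hs ht h1 h2 =>
      rw [show (⟨s * t, hs'⟩ : A) = ⟨s, hA hs⟩ * ⟨t, hA ht⟩ from rfl, map_mul]
      rcases h1 (hA hs) with h1 | h1 <;> rcases h2 (hA ht) with h2 | h2 <;>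
        simp [h1, h2, ← map_mul, sA_sq]
    | inv s hs h1 =>
      rw [show (⟨s⁻¹, hs'⟩ : A) = ⟨s, hA hs⟩⁻¹ from rfl, map_inv]
      rcases h1 (hA hs) with h1 | h1
      · simp [h1]
      · exact Or.inr (by rw [h1, inv_eq_iff_mul_eq_one, ← map_mul, sA_sq, map_one])
  · have := mono hA q g hg hq (x.1.injective.ne hab) hab
    rw [← sA_conj, map_mul, map_mul, map_inv, mul_inv_eq_iff_eq_mul] at this
    exact this.symm

include hA in
lemma A_mono (N K : Subgroup A) (hN : N.Normal) (hK : K.Normal) (h1 : N ≠ ⊥) (h2 : K ≠ ⊥) :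
    ∃ a ∈ N, ∃ b ∈ K, a * b ≠ b * a := by
  have k : ∀ N : Subgroup A, N.Normal → N ≠ ⊥ → ∀ a b c : X, a ≠ b → a ≠ c →
      (sA hA a b)⁻¹ * sA hA a c ∈ N := fun N hN h a b c h1 h2 => by
    obtain ⟨g, g1, g2⟩ := (Subgroup.bot_or_exists_ne_one N).resolve_left h
    exact QuotientGroup.eq.1 (mono hA (QuotientGroup.mk' N) g g2 ((QuotientGroup.eq_one_iff g).2 g1)
      h1 h2)
  let e := Infinite.natEmbedding X
  have ne : ∀ i j, i ≠ j → e i ≠ e j := fun i j h => e.injective.ne h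
  refine ⟨_, k N hN h1 (e 0) (e 1) (e 2) (ne _ _ (by decide)) (ne _ _ (by decide)), _,
    k K hK h2 (e 0) (e 1) (e 3) (ne _ _ (by decide)) (ne _ _ (by decide)), fun h => ?_⟩
  have := Equiv.congr_fun (congrArg Subtype.val h) (e 0)
  simp [sA_coe, swap_apply_of_ne_of_ne, ne] at this

include hA in
lemma A_inf : Infinite A := by
  obtain ⟨x⟩ : Nonempty X := inferInstance
  exact Infinite.of_injective (fun y => sA hA x y) fun y z e => by
    simpa [sA_coe] using Equiv.congr_fun (congrArg Subtype.val e) x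

end

def un {j : ℕ} (p : Fin j → ℕ) (i : Fin j) : ∀ i, Multiplicative (ZMod (p i)) :=
  Pi.mulSingle i (Multiplicative.ofAdd (1 : ZMod (p i)))

lemma crt {j : ℕ} (p : Fin j → ℕ) [∀ i, Fact (p i).Prime] (hp : Function.Injective p)
    (T T' : Subgroup (∀ i, Multiplicative (ZMod (p i))))
    (h : ∀ i, un p i ∈ T → un p i ∈ T') : T ≤ T' := by
  intro c hc
  refine Subgroup.pi_mem_of_mulSingle_mem c fun i => ?_
  by_cases h0 : c i = 1
  · rw [h0, Pi.mulSingle_one]; exact one_mem _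
  have h1 : ((∏ k ∈ Finset.univ.erase i, p k : ℕ) : ZMod (p i)) ≠ 0 := by
    rw [Nat.cast_prod, Finset.prod_ne_zero_iff]
    intro k hk e
    rw [ZMod.natCast_eq_zero_iff, Nat.prime_dvd_prime_iff_eq Fact.out Fact.out] at e
    exact Finset.ne_of_mem_erase hk (hp e).symm
  have h2 : (c i).toAdd ≠ 0 := h0
  have := T.pow_mem (T.pow_mem hc (∏ k ∈ Finset.univ.erase i, p k))
    (((∏ k ∈ Finset.univ.erase i, p k : ℕ) * (c i).toAdd)⁻¹).val
  rw [show (c ^ ∏ k ∈ Finset.univ.erase i, p k) ^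
      (((∏ k ∈ Finset.univ.erase i, p k : ℕ) * (c i).toAdd)⁻¹).val =
      un p i by
    funext k
    refine Multiplicative.toAdd.injective ?_
    simp only [Pi.pow_apply, toAdd_pow, nsmul_eq_mul]
    by_cases e : k = i
    · subst e
      rw [ZMod.natCast_zmod_val, inv_mul_cancel₀ (mul_ne_zero h1 h2)]; simp [un]
    · rw [(ZMod.natCast_eq_zero_iff _ (p k)).2 (Finset.dvd_prod_of_mem p (by simp [e]))]
      simp [un, Pi.mulSingle_eq_of_ne e]] at this
  have := T'.pow_mem (h i this) (c i).toAdd.val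
  rwa [un, ← Pi.mulSingle_pow, ← ofAdd_nsmul, nsmul_eq_mul, mul_one, ZMod.natCast_zmod_val] at this

variable {P : ℕ → ℕ} [∀ i, Fact (P i).Prime] {S : Set (WP P)} (hS : Good P S)

abbrev XX (S : Set (WP P)) := HH P S ⧸ (LL P).subgroupOf (HH P S)

lemma cst_mem (p : ℕ) [Fact p.Prime] (c : ZMod p) : iV (fun _ => c) ∈ EE p := iV_mem (by simp)

omit [∀ i, Fact (P i).Prime] in
lemma cst_comm {p : ℕ} (c : ZMod p) (e : Wr p) : iV (fun _ => c) * e = e * iV fun _ => c := by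
  ext <;> simp [add_comm]

def zH (i : ℕ) : HH P S := sH hS i ⟨_, cst_mem _ 1⟩

lemma zH_comm (i : ℕ) (h : HH P S) : zH hS i * h = h * zH hS i := Subtype.ext (funext fun j => by
  by_cases c : j = i
  · subst c; simpa [zH, sH_self] using cst_comm 1 _
  · simp [zH, sH_ne hS c])

lemma zH_pow (i n : ℕ) : (zH hS i ^ n).1 i = iV fun _ => (n : ZMod (P i)) := by
  rw [SubmonoidClass.coe_pow, Pi.pow_apply, zH, sH_self, iV_pow]; ext <;> simp

lemma zH_fin (i : ℕ) : IsOfFinOrder (zH hS i) :=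
  (sH hS i).isOfFinOrder (isOfFinOrder_of_finite _)

lemma zH_inj (y : XX S) : Function.Injective fun n => zH hS n • y := by
  intro n m e
  obtain ⟨g, rfl⟩ := QuotientGroup.mk_surjective y
  have : (zH hS n * g)⁻¹ * (zH hS m * g) ∈ (LL P).subgroupOf (HH P S) := QuotientGroup.eq.1 e
  rw [zH_comm, zH_comm, mul_inv_rev, mul_assoc, inv_mul_cancel_left] at this
  have k : ∀ n i, ∃ c, (zH hS n).1 i = iV fun _ => c := fun n i => by
    by_cases c : i = n
    · subst c; exact ⟨1, sH_self _ _ _⟩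
    · exact ⟨0, sH_ne hS c _⟩
  have := LL_cen hS 0 this fun i _ => by
    obtain ⟨c, hc⟩ := k n i
    obtain ⟨d, hd⟩ := k m i
    simp [hc, hd]
  by_contra hc
  have := congrFun (congrArg Wr.v (congrFun this n)) 0
  simp [zH, sH_self, sH_ne hS hc] at this

include hS in
lemma X_inf : Infinite (XX S) := Infinite.of_injective _ (zH_inj hS (QuotientGroup.mk 1))

include hS in
lemma hfin (h : HH P S) (hh : MulAction.toPermHom _ (XX S) h ∈ FS (XX S)) : h = 1 := by
  have k : ∀ x : XX S, h • x = x := fun x => by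
    by_contra hc
    refine Set.infinite_of_injective_forall_mem (zH_inj hS x) (fun n => ?_) (mem_FS.1 hh)
    refine fun e => hc ?_
    replace e : h • zH hS n • x = zH hS n • x := e
    rwa [smul_smul, ← zH_comm, mul_smul, smul_left_cancel_iff] at e
  have k2 : ∀ g : HH P S, (g⁻¹ * h⁻¹ * g).1 ∈ LL P := fun g => by
    have : (h * g)⁻¹ * g ∈ (LL P).subgroupOf (HH P S) := QuotientGroup.eq.1 (k (QuotientGroup.mk g))
    rwa [mul_inv_rev] at this
  have k3 : h.1 ∈ LL P := by simpa using k2 1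
  have k4 : ∀ i, ∀ e ∈ EE (P i), h.1 i * e = e * h.1 i := fun i e he => by
    have := LL_cen hS i (mul_mem (k2 (sH hS i ⟨e, he⟩)) k3) fun j hj => by simp [sH_ne hS hj]
    have := congrFun this i
    simp only [Subgroup.coe_mul, Subgroup.coe_inv, Pi.mul_apply, Pi.inv_apply, sH_self,
      Pi.one_apply] at this
    calc _ = h.1 i * e * (e⁻¹ * (h.1 i)⁻¹ * e * h.1 i) := by rw [this, mul_one]
      _ = _ := by group
  refine Subtype.ext (LL_cen hS 0 k3 fun i _ => ?_)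
  have g1 : (h.1 i).g = 1 := faith (hS.h8 i) _ fun v hv => k4 i _ (iV_mem hv)
  refine ⟨g1, fun x y => ?_⟩
  simpa using congrFun (congrArg Wr.v (k4 i _ (iP_mem (tr_even (hS.h8 i) (x - y).val)))) x

abbrev AG (S : Set (WP P)) := AA (HH P S) (XX S)

include hS in
lemma G_fg : Group.FG (AG S × AG S) := by
  haveI := AA_fg (hfin hS) (HH_fg hS) (QuotientGroup.mk 1)
  infer_instance

include hS in
lemma G_of : OF (AG S × AG S) := by
  haveI := X_inf hS
  haveI := A_inf (FS_le (HH P S) (XX S))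
  have st : ∀ h : HH P S, h • (QuotientGroup.mk 1 : XX S) = QuotientGroup.mk 1 ↔ h.1 ∈ LL P :=
    fun h => (QuotientGroup.eq (a := h * 1) (b := 1)).trans (by simp [Subgroup.mem_subgroupOf])
  refine (AA_of (hfin hS) (HH_fg hS) (QuotientGroup.mk 1) _ (zH_comm hS) (zH_fin hS) (zH_inj hS) _
    (Ph0_fin hS) fun α hα => ?_).prod (A_mono (FS_le _ _))
  simp only [st] at hα ⊢
  exact st1 hS hα

def cM (j : ℕ) : (∀ i : Fin j, Multiplicative (ZMod (P i))) →* HH P S :=
  (MonoidHom.mk' (fun c i => if h : i < j then iV fun _ => (c ⟨i, h⟩).toAdd else 1) fun a b => by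
    funext i; by_cases h : i < j
    · simp only [h, dif_pos, Pi.mul_apply]; exact iV_add _ _
    · simp [h] : _ →* WW P).codRestrict _ fun c =>
    Submonoid.pi_mem_of_mulSingle_mem_aux (Finset.range j) _ (fun i hi => by
      simp only [Finset.mem_range] at hi; simp [hi]) fun i hi => sing_mem hS i (by
      simp only [Finset.mem_range] at hi; simpa [hi] using cst_mem _ _)

lemma left (n j : ℕ) (hj : ∀ i, j ≤ i → n + 5 < P i) (K K' : Subgroup (HH P S)) [K.Normal]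
    (k0 : K.index ≠ 0) (k1 : K.index ≤ n) (k0' : K'.index ≠ 0) (k1' : K'.index ≤ n)
    (hE : ∀ i < j, (∀ e, sH hS i e ∈ K) → ∀ e, sH hS i e ∈ K')
    (hV : ∀ i < j, (∀ v hv, sH hS i ⟨iV v, iV_mem hv⟩ ∈ K) → ∀ v hv, sH hS i ⟨iV v, iV_mem hv⟩ ∈ K')
    (h : HH P S) (hh : ∀ e, h * e * h⁻¹ * e⁻¹ ∈ K) : ∃ c, h * (cM hS j c)⁻¹ ∈ K ⊓ K' := by
  let c : ∀ i : Fin j, Multiplicative (ZMod (P i)) := fun i =>
    if (h.1 i).g = 1 ∧ ∀ x y, (h.1 i).v x = (h.1 i).v y then .ofAdd ((h.1 i).v 0) else 1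
  refine ⟨c, ?_⟩
  set x := h * (cM hS j c)⁻¹ with hx
  have kl : ∀ K : Subgroup (HH P S), K.index ≠ 0 → K.index ≤ n →
      tr P (n + 5) x.1 ∈ K.map (HH P S).subtype := fun K a b => by
    have : (K.map (HH P S).subtype).relIndex (HH P S) = K.index := by
      rw [Subgroup.relIndex, ← Subgroup.comap_subtype,
        Subgroup.comap_map_eq_self_of_injective Subtype.val_injective]
    exact HH_kill hS _ _ (by rwa [this]) (by omega) (by omega) x.2
  have m1 : tr P (n + 5) x.1 ∈ (K ⊓ K').map (HH P S).subtype := by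
    rw [Subgroup.map_inf _ _ _ Subtype.val_injective]; exact ⟨kl K k0 k1, kl K' k0' k1'⟩
  have m2 : x.1 * (tr P (n + 5) x.1)⁻¹ ∈ (K ⊓ K').map (HH P S).subtype := by
    refine Submonoid.pi_mem_of_mulSingle_mem_aux (Finset.range j) _ (fun i hi => ?_) fun i hi => ?_
    · simp [tr, (hj i (by simpa using hi)).not_ge]
    rw [Finset.mem_range] at hi
    by_cases h1 : P i ≤ n + 5
    swap
    · simp [tr, h1]
    simp only [tr, h1, MonoidHom.mk'_apply, Pi.mul_apply, Pi.inv_apply, if_true, inv_one, mul_one]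
    by_cases h2 : (h.1 i).g = 1 ∧ ∀ x y, (h.1 i).v x = (h.1 i).v y
    · rw [show x.1 i = 1 by
        ext y
        · simp [hx, cM, hi, c, if_pos h2, h2.2 y 0]
        · simp [hx, cM, hi, h2.1]]
      simp
    rw [show x.1 i = h.1 i by simp [hx, cM, hi, c, if_neg h2]; rfl]
    let N := (K.comap (sH hS i)).map (EE (P i)).subtype
    have mem : ∀ e he, e ∈ N → sH hS i ⟨e, he⟩ ∈ K := by rintro _ _ ⟨e, h, rfl⟩; exact h
    have n1 : ∀ e ∈ EE (P i), ∀ n ∈ N, e * n * e⁻¹ ∈ N := by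
      rintro e he _ ⟨m, hm, rfl⟩
      exact ⟨⟨e, he⟩ * m * ⟨e, he⟩⁻¹, (K.normal_comap _).conj_mem m hm _, rfl⟩
    have hE' := HH_E hS h.2 i
    have n2 : ∀ e ∈ EE (P i), h.1 i * e * (h.1 i)⁻¹ * e⁻¹ ∈ N := fun e he => by
      refine ⟨⟨_, hE'⟩ * ⟨e, he⟩ * ⟨_, hE'⟩⁻¹ * ⟨e, he⟩⁻¹, ?_, rfl⟩
      have := hh (sH hS i ⟨e, he⟩)
      rwa [show h * sH hS i ⟨e, he⟩ * h⁻¹ * (sH hS i ⟨e, he⟩)⁻¹ =
          sH hS i (⟨_, hE'⟩ * ⟨e, he⟩ * ⟨_, hE'⟩⁻¹ * ⟨e, he⟩⁻¹) from Subtype.ext (funext fun k => by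
        by_cases c : k = i
        · subst c; simp [sH_self]
        · simp [sH_ne hS c])] at this
    refine ⟨sH hS i ⟨_, hE'⟩, ?_, rfl⟩
    by_cases h3 : (h.1 i).g = 1
    · obtain ⟨y, z, hyz⟩ : ∃ y z, (h.1 i).v y ≠ (h.1 i).v z := by
        by_contra hc; push Not at hc; exact h2 ⟨h3, hc⟩
      have := fun v hv => mem _ (iV_mem hv)
        (norm_V (hS.h8 i) N n1 _ z y hyz (by rw [← eq_iV h3]; exact n2) v hv)
      rw [show (⟨_, hE'⟩ : EE (P i)) = ⟨_, iV_mem hE'.2⟩ from Subtype.ext (eq_iV h3)]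
      exact ⟨this _ hE'.2, hV i hi this _ hE'.2⟩
    · have := fun e : EE (P i) => mem _ e.2 (norm_E (hS.h8 i) N n1 _ hE' h3 n2 e.2)
      exact ⟨this ⟨_, hE'⟩, hE i hi this _⟩
  obtain ⟨u, hu, e⟩ := mul_mem m2 m1
  rw [inv_mul_cancel_right] at e
  rwa [← Subtype.ext e]

lemma odd_sq {G : Type} [Group G] (N : Subgroup G) (x : G) (m : ℕ) (hm : Odd m) (h1 : x ^ m = 1)
    (h2 : x * x ∈ N) : x ∈ N := by
  obtain ⟨k, rfl⟩ := hm
  have := N.pow_mem h2 (k + 1)
  rwa [← sq, ← pow_mul, show 2 * (k + 1) = 2 * k + 1 + 1 by ring, pow_succ, h1, one_mul] at this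

def lam1 : HH P S →* AG S × AG S := (MonoidHom.inl _ _).comp (io _ _)

def ps (j : ℕ) := ((io _ (XX S)).comp (cM hS j)).prodMap ((io _ (XX S)).comp (cM hS j))

def tests (j : ℕ) (t : AG S) (N : Subgroup (AG S × AG S)) :
    (Fin j → Prop × Prop × Prop × Prop) × Prop × Prop :=
  (fun i => (∀ e, lam1 (sH hS i e) ∈ N, ∀ v hv, lam1 (sH hS i ⟨iV v, iV_mem hv⟩) ∈ N,
    ps hS j (un _ i, un _ i) ∈ N, ps hS j (un _ i, (un _ i)⁻¹) ∈ N), (t, 1) ∈ N, (t, t) ∈ N)

lemma tests_le (n j : ℕ) (hj : ∀ i, j ≤ i → n + 5 < P i) {a b : XX S} (hab : a ≠ b)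
    (N N' : Subgroup (AG S × AG S)) (c : N.Characteristic) (c' : N'.Characteristic)
    (k0 : N.index ≠ 0) (k1 : N.index ≤ n) (k0' : N'.index ≠ 0) (k1' : N'.index ≤ n)
    (e : tests hS j (sA (FS_le _ _) a b) N = tests hS j (sA (FS_le _ _) a b) N') : N ≤ N' := by
  haveI := X_inf hS
  haveI := A_inf (FS_le (HH P S) (XX S))
  set t := sA (FS_le (HH P S) (XX S)) a b
  have sw : ∀ N : Subgroup (AG S × AG S), N.Characteristic → ∀ x y, (x, y) ∈ N → (y, x) ∈ N :=
    fun N c x y h => Subgroup.characteristic_iff_le_comap.1 c MulEquiv.prodComm h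
  let q := QuotientGroup.mk' (N ⊓ N')
  have cg : ∀ x y, q x = q y → x⁻¹ * y ∈ N ⊓ N' := fun x y h => QuotientGroup.eq.1 h
  have qs : ∀ x y, q (x, 1) = q (y, 1) → q (1, x) = q (1, y) := fun x y h =>
    QuotientGroup.eq.2 ⟨by simpa using sw N c _ _ (cg _ _ h).1, by simpa using sw N' c' _ _ (cg _ _ h).2⟩
  haveI : N.FiniteIndex := ⟨k0⟩
  haveI : N'.FiniteIndex := ⟨k0'⟩
  obtain ⟨g0, g1, g2⟩ := (Subgroup.bot_or_exists_ne_one
    ((N ⊓ N').comap (MonoidHom.inl _ _))).resolve_left fun e => by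
      haveI : ((N ⊓ N').comap (MonoidHom.inl (AG S) (AG S))).FiniteIndex := ⟨by
        rw [Subgroup.index_comap]
        exact fun e => (N ⊓ N').index_ne_zero_of_finite
          (by simpa using Subgroup.relIndex_eq_zero_of_le_right le_top e)⟩
      rw [e] at this
      exact this.index_ne_zero (by simp)
  obtain ⟨f1, f2⟩ := fs_q (FS_le _ _) (q.comp (MonoidHom.inl _ _)) g0 g2
    ((QuotientGroup.eq_one_iff _).2 g1) hab
  simp only [MonoidHom.comp_apply, MonoidHom.inl_apply] at f1 f2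
  have ix : ∀ N : Subgroup (AG S × AG S), N.index ≠ 0 → N.index ≤ n →
      (N.comap lam1).index ≠ 0 ∧ (N.comap lam1).index ≤ n := fun N a b => by
    rw [Subgroup.index_comap]
    exact ⟨fun e => a (by simpa using Subgroup.relIndex_eq_zero_of_le_right le_top e),
      (Subgroup.relIndex_le_of_le_right le_top (by simpa using a)).trans (by simpa using b)⟩
  have e1 := fun i => congrFun (congrArg Prod.fst e) i
  have one : ∀ x y, (x, y) ∈ N → ∃ u d, (u = 1 ∨ u = t) ∧ q (x, 1) = q (u * io _ _ (cM hS j d), 1) := by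
    intro x y hxy
    obtain ⟨u, u1, u2⟩ : ∃ u, (u = 1 ∨ u = t) ∧ q (x * (io _ _ (pr (hfin hS) x))⁻¹, 1) = q (u, 1) :=
      (f1 _ (pr_rem (hfin hS) x)).elim (fun h => ⟨1, Or.inl rfl, h⟩) fun h => ⟨t, Or.inr rfl, h⟩
    have u3 : q (x, 1) = q (u, 1) * q (lam1 (pr (hfin hS) x)) := by
      rw [← u2, ← map_mul]; simp [lam1]
    have u4 : ∀ z, q (u, 1) * q (lam1 z) = q (lam1 z) * q (u, 1) := fun z => by
      rcases u1 with rfl | rfl
      · simp [show ((1, 1) : AG S × AG S) = 1 from rfl]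
      · exact f2 _
    obtain ⟨d, hd⟩ := left hS n j hj (N.comap lam1) (N'.comap lam1) (ix N k0 k1).1 (ix N k0 k1).2
      (ix N' k0' k1').1 (ix N' k0' k1').2
      (fun i hi => (congrArg (·.1) (e1 ⟨i, hi⟩)).mp) (fun i hi => (congrArg (·.2.1) (e1 ⟨i, hi⟩)).mp)
      (pr (hfin hS) x) fun z => by
        have m : (x, y) * (lam1 z * (x, y)⁻¹ * (lam1 z)⁻¹) ∈ N :=
          mul_mem hxy ((inferInstance : N.Normal).conj_mem _ (inv_mem hxy) _)
        rw [show (x, y) * (lam1 z * (x, y)⁻¹ * (lam1 z)⁻¹) =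
          (x, 1) * lam1 z * (x, 1)⁻¹ * (lam1 z)⁻¹ by simp [lam1, mul_assoc]] at m
        refine (N.mul_mem_cancel_left (inv_mem m)).1 (cg _ _ ?_).1
        simp only [map_mul, map_inv, u3]
        rw [u4, mul_assoc (q _) (q _) (q (lam1 z)), u4]
        group
    refine ⟨u, d, u1, ?_⟩
    have : q (lam1 (pr (hfin hS) x * (cM hS j d)⁻¹)) = 1 := (QuotientGroup.eq_one_iff _).2 hd
    rw [map_mul, map_mul, map_inv, map_inv, mul_inv_eq_one] at this
    rw [u3, this, ← map_mul]; simp [lam1]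
  have od : ∀ N : Subgroup (AG S × AG S), ∀ y, ps hS j (y * y) ∈ N → ps hS j y ∈ N := fun N y h =>
    odd_sq N _ (∏ i : Fin j, P i) (Finset.prod_induction _ _ (fun _ _ => Odd.mul) odd_one fun i _ =>
      (Fact.out : (P i).Prime).odd_of_ne_two (by have := hS.h8 i; omega)) (by
        have : ∀ d : ∀ i : Fin j, Multiplicative (ZMod (P i)), d ^ (∏ i : Fin j, P i) = 1 := fun d =>
          funext fun i => Multiplicative.toAdd.injective (by
            rw [Pi.pow_apply, toAdd_pow, nsmul_eq_mul, (ZMod.natCast_eq_zero_iff _ _).2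
              (Finset.dvd_prod_of_mem (fun i : Fin j => P i) (Finset.mem_univ i))]; simp)
        rw [← map_pow, show y ^ _ = 1 from Prod.ext (this _) (this _), map_one]) (by rwa [← map_mul])
  rintro ⟨x, y⟩ hxy
  obtain ⟨u, d, u1, u2⟩ := one x y hxy
  obtain ⟨u', d', u1', u2'⟩ := one y x (sw N c _ _ hxy)
  have q1 : q (x, y) = q ((u, u') * ps hS j (d, d')) := by
    rw [show (x, y) = (x, 1) * (1, y) by simp, map_mul, u2, qs _ _ u2', ← map_mul]; simp [ps]
  have m1 := (N.mul_mem_cancel_left (inv_mem hxy)).1 (cg _ _ q1).1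
  have sq : ∀ u : AG S, u = 1 ∨ u = t → ∀ z, q (u * z * (u * z), 1) = q (z * z, 1) := by
    rintro u (rfl | rfl) z
    · simp
    · have := f2 z
      rw [show (t * z * (t * z), (1 : AG S)) = (t, 1) * ((z, 1) * (t, 1)) * (z, 1) by simp [mul_assoc],
        map_mul, map_mul, map_mul, ← this, ← mul_assoc, ← map_mul, mul_assoc, ← map_mul]
      simp [t, sA_sq, show ((1, 1) : AG S × AG S) = 1 from rfl]
  have m2 : ps hS j (d, d') ∈ N := od N _ ((N.mul_mem_cancel_left (inv_mem (mul_mem m1 m1))).1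
    (cg _ _ (by
      have := congrArg₂ (· * ·) (sq u u1 (io _ _ (cM hS j d))) (qs _ _ (sq u' u1' (io _ _ (cM hS j d'))))
      simpa [← map_mul, ps] using this)).1)
  have m3 : (u, u') ∈ N' := by
    have := (N.mul_mem_cancel_right m2).1 m1
    have e2 := (congrArg (·.2.1) e).mp
    rcases u1 with rfl | rfl <;> rcases u1' with rfl | rfl
    exacts [one_mem _, sw N' c' _ _ (e2 (sw N c _ _ this)), e2 this, (congrArg (·.2.2) e).mp this]
  have m4 : ps hS j (d', d) ∈ N := sw N c _ _ m2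
  have m5 : ps hS j (d * d', d * d') ∈ N' := crt (fun i : Fin j => P i)
    (hS.hi.comp Fin.val_injective) (N.comap ((ps hS j).comp ((MonoidHom.id _).prod (MonoidHom.id _))))
    (N'.comap ((ps hS j).comp ((MonoidHom.id _).prod (MonoidHom.id _))))
    (fun i => (congrArg (·.2.2.1) (e1 i)).mp) (show ps hS j (d * d', d * d') ∈ N by
      have := mul_mem m2 m4
      rwa [← map_mul, Prod.mk_mul_mk, mul_comm d'] at this)
  have m6 : ps hS j (d * d'⁻¹, (d * d'⁻¹)⁻¹) ∈ N' := crt (fun i : Fin j => P i)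
    (hS.hi.comp Fin.val_injective) (N.comap ((ps hS j).comp ((MonoidHom.id _).prod invMonoidHom)))
    (N'.comap ((ps hS j).comp ((MonoidHom.id _).prod invMonoidHom)))
    (fun i => (congrArg (·.2.2.2) (e1 i)).mp) (show ps hS j (d * d'⁻¹, (d * d'⁻¹)⁻¹) ∈ N by
      have := mul_mem m2 (inv_mem m4)
      rwa [← map_inv, ← map_mul, Prod.inv_mk, Prod.mk_mul_mk, ← inv_inv d', ← mul_inv_rev,
        inv_inv] at this)
  have m7 : ps hS j (d, d') ∈ N' := od N' _ (by
    have := mul_mem m5 m6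
    rwa [← map_mul, show (d * d', d * d') * (d * d'⁻¹, (d * d'⁻¹)⁻¹) = (d, d') * (d, d') by
      ext : 1 <;> simp [mul_comm, mul_left_comm]] at this)
  exact N'.inv_mem_iff.1 ((N'.mul_mem_cancel_right (mul_mem m3 m7)).1 (cg _ _ q1).2)

include hS in
lemma upper (n j : ℕ) (hj : ∀ i, j ≤ i → n + 5 < P i) :
    {N : Subgroup (AG S × AG S) | N.Characteristic ∧ N.index ≠ 0 ∧ N.index ≤ n}.ncard ≤
      2 ^ (4 * j + 2) := by
  haveI := X_inf hS
  obtain ⟨a, b, hab⟩ := exists_pair_ne (XX S)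
  refine (Set.ncard_le_ncard_of_injOn (tests hS j (sA (FS_le _ _) a b)) (t := Set.univ)
    (fun _ _ => trivial) fun N h N' h' e => le_antisymm
      (tests_le hS n j hj hab N N' h.1 h'.1 h.2.1 h.2.2 h'.2.1 h'.2.2 e)
      (tests_le hS n j hj hab N' N h'.1 h.1 h'.2.1 h'.2.2 h.2.1 h.2.2 e.symm)).trans (le_of_eq ?_)
  simp [pow_add, pow_mul]

include hS in
lemma lower (n i : ℕ) (hn : Nat.card (Wr (P i)) ^ 2 ≤ n) :
    P i ≤ {N : Subgroup (AG S × AG S) | N.Normal ∧ N.index ≠ 0 ∧ N.index ≤ n}.ncard := by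
  let κ : AG S →* Wr (P i) := (Pi.evalMonoidHom _ i).comp ((HH P S).subtype.comp (pr (hfin hS)))
  let Lc : ZMod (P i) → Subgroup (Wr (P i) × Wr (P i)) := fun c =>
    { carrier := {x | ∃ r, x = (iV fun _ => r, iV fun _ => c * r)}
      one_mem' := ⟨0, by simp; rfl⟩
      mul_mem' := by
        rintro _ _ ⟨r, rfl⟩ ⟨s, rfl⟩
        exact ⟨r + s, by ext <;> simp [mul_add]⟩
      inv_mem' := by
        rintro _ ⟨r, rfl⟩
        exact ⟨-r, by ext <;> simp⟩ }
  haveI : ∀ c, (Lc c).Normal := fun c => ⟨by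
    rintro _ ⟨r, rfl⟩ g
    exact ⟨r, Prod.ext (by simp [← cst_comm]) (by simp [← cst_comm])⟩⟩
  conv_lhs => rw [← Nat.card_zmod (P i), ← Set.ncard_univ]
  refine Set.ncard_le_ncard_of_injOn (fun c => (Lc c).comap (κ.prodMap κ)) (fun c _ => ?_)
    (fun c _ d _ e => ?_) (fin_normal (G_fg hS) n)
  · refine ⟨inferInstance, ?_⟩
    rw [Subgroup.index_comap]
    refine ⟨Subgroup.index_ne_zero_of_finite, (Subgroup.relIndex_le_of_le_right le_top
      Subgroup.index_ne_zero_of_finite).trans ?_⟩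
    rw [Subgroup.relIndex_top_right]
    exact (Nat.le_of_dvd Nat.card_pos (Lc c).index_dvd_card).trans (by rwa [Nat.card_prod, ← sq])
  · have k : ∀ m : ℕ, κ (io _ _ (zH hS i ^ m)) = iV fun _ => (m : ZMod (P i)) := fun m => by
      rw [← zH_pow hS]; simp only [κ, MonoidHom.comp_apply, pr_io]; rfl
    have : (io _ _ (zH hS i ^ 1), io _ _ (zH hS i ^ c.val)) ∈ (Lc c).comap (κ.prodMap κ) :=
      ⟨1, Prod.ext ((k 1).trans (by simp)) ((k _).trans (by simp))⟩
    simp only at e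
    rw [e] at this
    obtain ⟨r, hr⟩ := this
    have a := congrFun (congrArg Wr.v ((k 1).symm.trans (congrArg Prod.fst hr))) 0
    have b := congrFun (congrArg Wr.v ((k _).symm.trans (congrArg Prod.snd hr))) 0
    simp at a b
    rw [b, ← a, mul_one]

end Pool.Agent.H.MP_216434_al
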