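import Mathlib

set_option autoImplicit false

namespace Pool.Agent.H.MP_216434_al

open Equiv Equiv.Perm

lemma dec5 : (((swap 0 1 * swap 2 3) * (finRotate 5 * (swap 0 1 * swap 2 3) * (finRotate 5)⁻¹)) ^ 6 :
    Perm (Fin 5)) 0 ≠ 0 := by decide +kernel

lemma dec8 : (((swap 0 1 * swap 2 3 * swap 4 5 * swap 6 7) * ((swap 0 2 * swap 2 4 * swap 4 6) *
    (swap 0 1 * swap 2 3 * swap 4 5 * swap 6 7) * (swap 0 2 * swap 2 4 * swap 4 6)⁻¹)) ^ 6 :
    Perm (Fin 8)) 0 ≠ 0 := by decide +kernel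

open Classical

variable {X : Type}

def FS (X : Type) : Subgroup (Perm X) := Subgroup.closure {σ : Perm X | σ.IsSwap}

lemma mem_FS {g : Perm X} : g ∈ FS X ↔ {x | g x ≠ x}.Finite := mem_closure_isSwap'

lemma swap_mem (a b : X) : swap a b ∈ FS X := by
  by_cases h : a = b
  · rw [h, swap_self]; exact one_mem _
  · exact Subgroup.subset_closure ⟨a, b, h, rfl⟩

instance : (FS X).Normal := ⟨fun s hs g => by
  rw [mem_FS] at *
  refine (hs.image g).subset fun x hx => ⟨g⁻¹ x, fun e => hx ?_, by simp⟩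
  rw [Perm.mul_apply, Perm.mul_apply, e]; simp⟩

lemma emb_pow {k : ℕ} (e : Fin k ↪ X) (s : Perm X) (s0 : Perm (Fin k)) (hs : ∀ i, s (e i) = e (s0 i))
    (h : ∀ g ∈ FS X, (s * (g * s * g⁻¹)) ^ 6 = 1) (g0 : Perm (Fin k)) :
    ((s0 * (g0 * s0 * g0⁻¹)) ^ 6) = 1 := by
  have hg : viaEmbeddingHom e g0 ∈ FS X := mem_FS.2 ((Set.finite_range e).subset fun x hx => by
    by_contra hc
    exact hx (viaEmbedding_apply_of_notMem _ _ _ hc))
  have h1 := h _ hg
  rw [← map_inv] at h1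
  have : ∀ i, (s * (viaEmbeddingHom e g0 * s * viaEmbeddingHom e g0⁻¹)) (e i) =
      e ((s0 * (g0 * s0 * g0⁻¹)) i) := fun i => by
    simp only [Perm.mul_apply, viaEmbeddingHom_apply, viaEmbedding_apply, hs]
  generalize s * (viaEmbeddingHom e g0 * s * viaEmbeddingHom e g0⁻¹) = u at *
  generalize s0 * (g0 * s0 * g0⁻¹) = u0 at *
  ext i
  have := this i
  have e2 : ∀ n : ℕ, ∀ i, (u ^ n) (e i) = e ((u0 ^ n) i) := by
    intro n
    induction n with
    | zero => simp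
    | succ n ih => intro i; simp only [pow_succ, Perm.mul_apply, *]
  have e3 := e2 6 i
  rw [h1] at e3
  rw [← e.injective e3]; rfl

lemma isSwap_of [Infinite X] (s : Perm X) (h1 : s ≠ 1) (h2 : s * s = 1)
    (h : ∀ g ∈ FS X, (s * (g * s * g⁻¹)) ^ 6 = 1) : s.IsSwap := by
  have ss : ∀ x, s (s x) = x := fun x => Equiv.congr_fun h2 x
  obtain ⟨y, hy⟩ : ∃ y, s y ≠ y := by
    by_contra hc
    push Not at hc
    exact h1 (Equiv.ext hc)
  have pr : ∀ a b, a ≠ b → a ≠ s b → s a ≠ b ∧ s a ≠ s b := fun a b h1 h2 =>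
    ⟨fun e => h2 (by rw [← e, ss]), fun e => h1 (s.injective e)⟩
  by_contra hn
  obtain ⟨z, z1, z2, z3⟩ : ∃ z, z ≠ y ∧ z ≠ s y ∧ s z ≠ z := by
    by_contra hc
    push Not at hc
    refine hn ⟨y, s y, hy.symm, Equiv.ext fun z => ?_⟩
    by_cases a : z = y
    · rw [a, swap_apply_left]
    by_cases b : z = s y
    · rw [b, swap_apply_right, ss]
    rw [swap_apply_of_ne_of_ne a b, hc z a b]
  obtain ⟨z4, z5⟩ := pr z y z1 z2
  by_cases hf : ∃ x, s x = x
  · obtain ⟨x, hx⟩ := hf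
    have x1 : x ≠ y := fun e => hy (e ▸ hx)
    have x2 : x ≠ z := fun e => z3 (e ▸ hx)
    have x3 := (pr x y x1 fun e => x1 (s.injective (hx.trans e))).2
    have x4 := (pr x z x2 fun e => x2 (s.injective (hx.trans e))).2
    rw [hx] at x3 x4
    have := emb_pow ⟨![y, s y, z, s z, x], List.nodup_ofFn.1 (by
      simp [hy.symm, z1.symm, z2.symm, z3.symm, z4.symm, z5.symm, x1.symm, x2.symm, x3.symm,
        x4.symm])⟩ s (swap 0 1 * swap 2 3) (by
      intro i; fin_cases i <;> simp [ss, hx, swap_apply_def]) h (finRotate 5)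
    exact dec5 (by rw [this]; rfl)
  · push Not at hf
    obtain ⟨u, hu⟩ := Infinite.exists_notMem_finset ({y, s y, z, s z} : Finset X)
    obtain ⟨w, hw⟩ := Infinite.exists_notMem_finset ({y, s y, z, s z, u, s u} : Finset X)
    simp only [Finset.mem_insert, Finset.mem_singleton, not_or] at hu hw
    obtain ⟨u1, u2, u3, u4⟩ := hu
    obtain ⟨w1, w2, w3, w4, w5, w6⟩ := hw
    obtain ⟨u5, u6⟩ := pr u y u1 u2
    obtain ⟨u7, u8⟩ := pr u z u3 u4
    obtain ⟨w7, w8⟩ := pr w y w1 w2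
    obtain ⟨w9, w10⟩ := pr w z w3 w4
    obtain ⟨w11, w12⟩ := pr w u w5 w6
    have := emb_pow ⟨![y, s y, z, s z, u, s u, w, s w], List.nodup_ofFn.1 (by
      simp [hy.symm, z1.symm, z2.symm, z3.symm, z4.symm, z5.symm, Ne.symm u1, Ne.symm u2,
        Ne.symm u3, Ne.symm u4, u5.symm, u6.symm, u7.symm, u8.symm, Ne.symm w1, Ne.symm w2,
        Ne.symm w3, Ne.symm w4, Ne.symm w5, Ne.symm w6, w7.symm, w8.symm, w9.symm, w10.symm,
        w11.symm, w12.symm, (hf u).symm, (hf w).symm])⟩ s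
      (swap 0 1 * swap 2 3 * swap 4 5 * swap 6 7) (by
      intro i; fin_cases i <;> simp [ss, swap_apply_def]) h (swap 0 2 * swap 2 4 * swap 4 6)
    exact dec8 (by rw [this]; rfl)

lemma comm_of_ne {a b c d : X} (h1 : a ≠ c) (h2 : a ≠ d) (h3 : b ≠ c) (h4 : b ≠ d) :
    Commute (swap a b) (swap c d) := by
  have := swap_apply_apply (swap a b) c d
  rw [swap_apply_of_ne_of_ne (Ne.symm h1) (Ne.symm h3),
    swap_apply_of_ne_of_ne (Ne.symm h2) (Ne.symm h4), eq_mul_inv_iff_mul_eq] at this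
  exact this.symm

lemma share {s t : Perm X} (hs : s.IsSwap) (ht : t.IsSwap) (h : ¬ Commute s t) :
    ∃ p q r, p ≠ q ∧ p ≠ r ∧ q ≠ r ∧ s = swap p q ∧ t = swap p r := by
  obtain ⟨a, b, hab, rfl⟩ := hs
  obtain ⟨c, d, hcd, rfl⟩ := ht
  have key : ∀ p q r, p ≠ q → p ≠ r → swap a b = swap p q → swap c d = swap p r →
      ∃ p q r, p ≠ q ∧ p ≠ r ∧ q ≠ r ∧ swap a b = swap p q ∧ swap c d = swap p r :=
    fun p q r h1 h2 e1 e2 => ⟨p, q, r, h1, h2, fun e => h (by rw [e1, e2, e]), e1, e2⟩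
  by_cases h1 : a = c
  · exact key a b d hab (h1 ▸ hcd) rfl (by rw [h1])
  by_cases h2 : a = d
  · exact key a b c hab h1 rfl (by rw [h2, swap_comm])
  by_cases h3 : b = c
  · exact key b a d hab.symm (h3 ▸ hcd) (swap_comm _ _) (by rw [h3])
  by_cases h4 : b = d
  · exact key b a c hab.symm h3 (swap_comm _ _) (by rw [h4, swap_comm])
  exact absurd (comm_of_ne h1 h2 h3 h4) h

lemma swap_six {s t : Perm X} (hs : s.IsSwap) (ht : t.IsSwap) : (s * t) ^ 6 = 1 := by
  by_cases h : Commute s t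
  · obtain ⟨a, b, hab, rfl⟩ := hs
    obtain ⟨c, d, hcd, rfl⟩ := ht
    rw [h.mul_pow, show 6 = 2 * 3 from rfl, pow_mul, pow_mul, sq, sq]
    simp
  · obtain ⟨p, q, r, h1, h2, h3, rfl, rfl⟩ := share hs ht h
    have a := swap_mul_swap_mul_swap h2.symm h3.symm
    have b := swap_mul_swap_mul_swap h1.symm h3
    rw [swap_comm r p] at a
    rw [swap_comm q p, swap_comm r q] at b
    have : (swap p q * swap p r) ^ 3 = 1 := by
      calc _ = (swap p q * swap p r * swap p q) * (swap p r * swap p q * swap p r) := by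
            simp only [pow_succ, pow_zero, one_mul, mul_assoc]
        _ = 1 := by rw [a, b, swap_mul_self]
    rw [show 6 = 3 * 2 from rfl, pow_mul, this, one_pow]

lemma swap_eq {a b c d : X} (h : a ≠ b) (e : swap a b = swap c d) :
    (a = c ∧ b = d) ∨ (a = d ∧ b = c) := by
  have := Equiv.congr_fun e a
  rw [swap_apply_left, swap_apply_def] at this
  split_ifs at this <;> simp_all

lemma common {a b b' c d d' : X} (h : a ≠ b) (h' : a ≠ b') (e : swap a b = swap c d)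
    (e' : swap a b' = swap c d') (hn : swap a b ≠ swap a b') : a = c := by
  rcases swap_eq h e with h1 | h1
  · exact h1.1
  rcases swap_eq h' e' with h2 | h2
  · exact h2.1
  exact absurd (by rw [h1.2, h2.2]) hn

variable {A : Subgroup (Perm X)} (hA : FS X ≤ A)

noncomputable def sA (a b : X) : A := ⟨swap a b, hA (swap_mem a b)⟩

lemma sA_coe (a b : X) : (sA hA a b).1 = swap a b := rfl

lemma sA_conj (g : A) (a b : X) : g * sA hA a b * g⁻¹ = sA hA (g.1 a) (g.1 b) :=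
  Subtype.ext (swap_apply_apply g.1 a b).symm

lemma sA_sq (a b : X) : sA hA a b * sA hA a b = 1 := Subtype.ext (swap_mul_self a b)

variable [Infinite X]

include hA in
lemma aut_swap (α : MulAut A) (a b : X) (h : a ≠ b) : (α (sA hA a b)).1.IsSwap := by
  refine isSwap_of _ (fun e => h ?_) ?_ fun g hg => ?_
  · have : sA hA a b = 1 := α.injective (Subtype.ext (by rw [e, map_one]; rfl))
    exact swap_eq_one_iff.1 (congrArg Subtype.val this)
  · rw [← Subgroup.coe_mul, ← map_mul, sA_sq, map_one]; rfl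
  · obtain ⟨u, hu⟩ := α.surjective ⟨g, hA hg⟩
    have : (sA hA a b * (u * sA hA a b * u⁻¹)) ^ 6 = 1 := by
      rw [sA_conj]
      exact Subtype.ext (swap_six ⟨a, b, h, rfl⟩ ⟨_, _, u.1.injective.ne h, rfl⟩)
    have := congrArg (fun x => (α x).1) this
    simpa [hu] using this

lemma star (α : MulAut A) (x : X) :
    ∃ c, ∀ y, y ≠ x → ∃ d, c ≠ d ∧ α (sA hA x y) = sA hA c d := by
  have nc : ∀ y z, y ≠ x → z ≠ x → y ≠ z → ¬ Commute (α (sA hA x y)).1 (α (sA hA x z)).1 := by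
    intro y z hy hz hyz h
    have : sA hA x y * sA hA x z = sA hA x z * sA hA x y :=
      α.injective (Subtype.ext (by simpa using h.eq))
    have := Equiv.congr_fun (congrArg Subtype.val this) x
    simp only [sA, Subgroup.coe_mul, Perm.mul_apply, swap_apply_left] at this
    rw [swap_apply_of_ne_of_ne hz hyz.symm, swap_apply_of_ne_of_ne hy hyz] at this
    exact hyz this.symm
  obtain ⟨y1, hy1⟩ := exists_ne x
  obtain ⟨y2, hy2⟩ := Infinite.exists_notMem_finset ({x, y1} : Finset X)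
  simp only [Finset.mem_insert, Finset.mem_singleton, not_or] at hy2
  obtain ⟨p, q, r, h1, h2, h3, e1, e2⟩ := share (aut_swap hA α _ _ hy1.symm)
    (aut_swap hA α _ _ (Ne.symm hy2.1)) (nc y1 y2 hy1 hy2.1 (Ne.symm hy2.2))
  refine ⟨p, fun y hy => ?_⟩
  by_cases a1 : y = y1
  · exact ⟨q, h1, Subtype.ext (a1 ▸ e1)⟩
  by_cases a2 : y = y2
  · exact ⟨r, h2, Subtype.ext (a2 ▸ e2)⟩
  obtain ⟨u, v, huv, e⟩ := aut_swap hA α _ _ hy.symm
  by_cases b1 : u = p
  · exact ⟨v, b1 ▸ huv, Subtype.ext (b1 ▸ e)⟩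
  by_cases b2 : v = p
  · exact ⟨u, b2 ▸ huv.symm, Subtype.ext (by rw [e, ← b2, swap_comm]; rfl)⟩
  exfalso
  have f1 : u = q ∨ v = q := by
    by_contra hc
    rw [not_or] at hc
    exact nc y y1 hy hy1 a1 (by rw [e, e1]; exact comm_of_ne b1 hc.1 b2 hc.2)
  have f2 : u = r ∨ v = r := by
    by_contra hc
    rw [not_or] at hc
    exact nc y y2 hy hy2.1 a2 (by rw [e, e2]; exact comm_of_ne b1 hc.1 b2 hc.2)
  have e3 : swap u v = swap q r := by
    rcases f1 with rfl | rfl <;> rcases f2 with rfl | rfl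
    exacts [absurd rfl h3, rfl, swap_comm _ _, absurd rfl h3]
  have e4 : α (sA hA x y) = α (sA hA x y1 * sA hA x y2 * (sA hA x y1)⁻¹) := by
    refine Subtype.ext ?_
    simp only [map_mul, map_inv, Subgroup.coe_mul, Subgroup.coe_inv, e, e1, e2, e3]
    rw [← swap_apply_apply, swap_apply_left, swap_apply_of_ne_of_ne h2.symm h3.symm]
  have e5 := congrArg Subtype.val (α.injective e4)
  rw [sA_conj, sA_coe, sA_coe, sA_coe, swap_apply_left,
    swap_apply_of_ne_of_ne hy2.1 hy2.2] at e5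
  rcases swap_eq hy.symm e5 with h | h
  · exact hy1 h.1.symm
  · exact hy2.1 h.1.symm

include hA in
theorem aut_conj (α : MulAut A) : ∃ σ : Perm X, ∀ g : A, (α g).1 = σ * g.1 * σ⁻¹ := by
  choose f hf using fun β => star hA β
  have two : ∀ x : X, ∃ y z, y ≠ x ∧ z ≠ x ∧ y ≠ z := fun x => by
    obtain ⟨y1, hy1⟩ := exists_ne x
    obtain ⟨y2, hy2⟩ := Infinite.exists_notMem_finset ({x, y1} : Finset X)
    simp only [Finset.mem_insert, Finset.mem_singleton, not_or] at hy2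
    exact ⟨y1, y2, hy1, hy2.1, Ne.symm hy2.2⟩
  have sne : ∀ x y z : X, y ≠ x → y ≠ z → sA hA x y ≠ sA hA x z := fun x y z h1 h2 e => by
    rcases swap_eq h1.symm (congrArg Subtype.val e) with h | h
    · exact h2 h.2
    · exact h1 h.2
  have inv : ∀ β : MulAut A, ∀ x, f β⁻¹ (f β x) = x := by
    intro β x
    obtain ⟨y, z, h1, h2, h3⟩ := two x
    obtain ⟨d, d1, d2⟩ := hf β x y h1
    obtain ⟨e, e1, e2⟩ := hf β x z h2
    obtain ⟨d', -, d4⟩ := hf β⁻¹ _ d d1.symm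
    obtain ⟨e', -, e4⟩ := hf β⁻¹ _ e e1.symm
    rw [← d2, MulAut.inv_apply_self] at d4
    rw [← e2, MulAut.inv_apply_self] at e4
    exact (common h1.symm h2.symm (congrArg Subtype.val d4) (congrArg Subtype.val e4)
      fun e => sne x y z h1 h3 (Subtype.ext e)).symm
  refine ⟨⟨f α, f α⁻¹, inv α, inv α⁻¹⟩, fun g => ?_⟩
  rw [eq_mul_inv_iff_mul_eq]
  ext x
  show (α g).1 (f α x) = f α (g.1 x)
  obtain ⟨y, z, h1, h2, h3⟩ := two x
  obtain ⟨d, d1, d2⟩ := hf α x y h1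
  obtain ⟨e, e1, e2⟩ := hf α x z h2
  obtain ⟨d', -, d4⟩ := hf α _ _ (g.1.injective.ne h1)
  obtain ⟨e', -, e4⟩ := hf α _ _ (g.1.injective.ne h2)
  rw [← sA_conj, map_mul, map_mul, map_inv, d2, sA_conj] at d4
  rw [← sA_conj, map_mul, map_mul, map_inv, e2, sA_conj] at e4
  refine common ((α g).1.injective.ne d1) ((α g).1.injective.ne e1) (congrArg Subtype.val d4)
    (congrArg Subtype.val e4) fun e => sne x y z h1 h3 (α.injective ?_)
  have e' : sA hA _ _ = sA hA _ _ := Subtype.ext e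
  rw [← sA_conj, ← sA_conj] at e'
  rw [d2, e2]
  simpa using e'

theorem mono {Q : Type} [Group Q] (q : A →* Q) (g : A) (hg : g ≠ 1) (hq : q g = 1) {a b c d : X}
    (hab : a ≠ b) (hcd : c ≠ d) : q (sA hA a b) = q (sA hA c d) := by
  obtain ⟨x, hx⟩ : ∃ x, g.1 x ≠ x := by
    by_contra hc
    push Not at hc
    exact hg (Subtype.ext (Equiv.ext hc))
  obtain ⟨y, hy⟩ := Infinite.exists_notMem_finset ({x, g.1⁻¹ x} : Finset X)
  obtain ⟨u, hu⟩ := Infinite.exists_notMem_finset ({x, y, g.1 x, g.1 y} : Finset X)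
  simp only [Finset.mem_insert, Finset.mem_singleton, not_or] at hy hu
  have y2 : g.1 y ≠ x := fun e => hy.2 (by rw [← e]; simp)
  have e0 : q (sA hA (g.1 x) (g.1 y)) = q (sA hA x y) := by rw [← sA_conj]; simp [hq]
  let K := (Subgroup.centralizer {q (sA hA x y)}).comap q
  have k0 : ∀ a b s t, q (sA hA s t) = q (sA hA x y) → a ≠ s → a ≠ t → b ≠ s → b ≠ t →
      sA hA a b ∈ K := by
    intro a b s t e h1 h2 h3 h4
    rw [Subgroup.mem_comap, Subgroup.mem_centralizer_singleton_iff, ← e, ← map_mul, ← map_mul]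
    exact congrArg q (Subtype.ext (comm_of_ne h1 h2 h3 h4).eq)
  have tr : ∀ a b c, sA hA a b ∈ K → sA hA b c ∈ K → sA hA a c ∈ K := fun a b c h1 h2 => by
    obtain ⟨v, hv, e⟩ := SubmonoidClass.swap_mem_trans (K.map A.subtype)
      (Subgroup.mem_map_of_mem A.subtype h1) (Subgroup.mem_map_of_mem A.subtype h2)
    have : v = sA hA a c := Subtype.ext e
    exact this ▸ hv
  have k1 : sA hA u x ∈ K := k0 _ _ _ _ e0 hu.2.2.1 hu.2.2.2 hx.symm y2.symm
  have k2 : ∀ a, sA hA u a ∈ K := fun a => by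
    by_cases h1 : a = x
    · exact h1 ▸ k1
    by_cases h2 : a = y
    · exact h2 ▸ tr _ _ _ k1 (Subgroup.mem_centralizer_singleton_iff.2 rfl)
    exact k0 _ _ _ _ rfl hu.1 hu.2.1 h1 h2
  have k3 : ∀ a b, sA hA a b ∈ K := fun a b =>
    tr _ _ _ (by rw [show sA hA a u = sA hA u a from Subtype.ext (swap_comm _ _)]; exact k2 a) (k2 b)
  have mv : ∀ s t, s ≠ t → q (sA hA s t) = q (sA hA x y) → ∀ a, a ≠ t →
      q (sA hA t a) = q (sA hA x y) := by
    intro s t hst e a ha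
    have := sA_conj hA (sA hA s a) s t
    rw [sA_coe, swap_apply_left, swap_apply_of_ne_of_ne hst.symm ha.symm] at this
    have h2 := Subgroup.mem_centralizer_singleton_iff.1 (k3 s a)
    rw [show sA hA t a = sA hA a t from Subtype.ext (swap_comm _ _), ← this, map_mul, map_mul,
      map_inv, e, h2]; simp
  have all : ∀ a b, a ≠ b → q (sA hA a b) = q (sA hA x y) := fun a b h => by
    by_cases h1 : a = y
    · exact h1 ▸ mv x y (Ne.symm hy.1) rfl b (h1 ▸ h.symm)
    · exact mv y a (Ne.symm h1) (mv x y (Ne.symm hy.1) rfl a h1) b h.symm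
  rw [all a b hab, all c d hcd]

end Pool.Agent.H.MP_216434_al
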