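import Pool.Agent.H.MP_216434_al.HH

set_option autoImplicit false

namespace Pool.Agent.H.MP_216434_al

open Classical Equiv Equiv.Perm Finsupp Pool.Agent.H.MP_fcd401_al

lemma alt_ab {p : ℕ} [Fact p.Prime] (h8 : 8 ≤ p) (g : Perm (ZMod p)) (hg : g ∈ alternatingGroup (ZMod p))
    (h : ∀ r ∈ alternatingGroup (ZMod p), g * (r * g * r⁻¹) = r * g * r⁻¹ * g) : g = 1 := by
  by_contra hc
  haveI := alt_simple (α := ZMod p) (by simp; omega)
  have top := (Subgroup.normalClosure_normal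
    (s := {(⟨g, hg⟩ : alternatingGroup (ZMod p))})).eq_bot_or_eq_top.resolve_left fun e => hc (by
      have := Subgroup.subset_normalClosure (Set.mem_singleton (⟨g, hg⟩ : alternatingGroup (ZMod p)))
      rw [e] at this
      exact congrArg Subtype.val (Subgroup.mem_bot.1 this))
  have le : Subgroup.normalClosure {(⟨g, hg⟩ : alternatingGroup (ZMod p))} ≤
      Subgroup.centralizer {⟨g, hg⟩} := (Subgroup.closure_le _).2 fun x hx => by
    obtain ⟨_, rfl, hx⟩ := Group.mem_conjugatesOfSet_iff.1 hx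
    obtain ⟨r, rfl⟩ := isConj_iff.1 hx
    exact Subgroup.mem_centralizer_singleton_iff.2 (Subtype.ext (h r.1 r.2).symm)
  obtain ⟨r, r1, r2⟩ := noncent h8 g hc
  exact r2 (congrArg Subtype.val (Subgroup.mem_centralizer_singleton_iff.1
    (le (top ▸ Subgroup.mem_top (⟨r, r1⟩ : alternatingGroup (ZMod p)))))).symm

lemma faith {p : ℕ} [Fact p.Prime] (h8 : 8 ≤ p) (e : Wr p)
    (h : ∀ v, ∑ x, v x = 0 → e * iV v = iV v * e) : e.g = 1 := by
  refine inv_eq_one.1 (Equiv.ext fun x => ?_)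
  obtain ⟨t, ht⟩ := exists_ne x
  have := congrFun (congrArg Wr.v (h _ (dd_sum x t))) x
  simp only [mul_v, iV_v, iV_g, inv_one, one_apply, add_comm (e.v x), add_left_inj, Pi.sub_apply,
    dl_apply, if_true, if_neg ht.symm] at this
  by_contra hc
  rw [if_neg (show ¬ e.g⁻¹ x = x from hc)] at this
  split_ifs at this
  · exact cast_ne (p := p) (s := 2) (by omega) (by rw [abs_lt]; omega)
      (by push_cast; linear_combination -this)
  · simp at this

variable {P : ℕ → ℕ} [∀ i, Fact (P i).Prime] {S : Set (WP P)} (hS : Good P S)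

def dH (e : ℤˣ) (k : ℤ) : HH P S := ⟨IP P (DD P e k), (IP_mem (DD_mem hS e k)).1⟩
noncomputable def wH (u : ℤ →₀ ℤ) : HH P S := ⟨ww P u, ww_mem hS u⟩
def sH (i : ℕ) : EE (P i) →* HH P S :=
  ((MonoidHom.mulSingle (fun i => Wr (P i)) i).comp (EE (P i)).subtype).codRestrict _
    fun e => sing_mem hS i e.2
def pH : HH P S →* WP P := MonoidHom.mk' (fun h i => (h.1 i).g) fun _ _ => rfl

lemma sH_self (i : ℕ) (e : EE (P i)) : (sH hS i e).1 i = e := by simp [sH]
lemma sH_ne {i j : ℕ} (h : j ≠ i) (e : EE (P i)) : (sH hS i e).1 j = 1 := by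
  simp [sH, Pi.mulSingle_eq_of_ne h]

lemma W_comm {a b : HH P S} (ha : pH a = 1) (hb : pH b = 1) : a * b = b * a :=
  Subtype.ext (funext fun i => by
    have a1 : (a.1 i).g = 1 := congrFun ha i
    have b1 : (b.1 i).g = 1 := congrFun hb i
    ext <;> simp [a1, b1, add_comm])

include hS

lemma W_char (α : MulAut (HH P S)) (h : HH P S) (hh : pH h = 1) : pH (α h) = 1 := by
  funext i
  refine alt_ab (hS.h8 i) _ (HH_E hS (α h).2 i).1 fun r hr => ?_
  obtain ⟨u, hu⟩ := α.surjective (sH hS i ⟨iP r, iP_mem hr⟩)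
  have := congrArg (fun x => pH (α x) i) (W_comm hh (b := u * h * u⁻¹) (by simp [hh]))
  simp only [map_mul, map_inv, hu, Pi.mul_apply, Pi.inv_apply] at this
  simpa [pH, sH_self] using this

lemma V_char (α : MulAut (HH P S)) (i : ℕ) (v : ZMod (P i) → ZMod (P i)) (hv : ∑ x, v x = 0) :
    ∃ w hw, α (sH hS i ⟨iV v, iV_mem hv⟩) = sH hS i ⟨iV w, iV_mem hw⟩ := by
  set h := α (sH hS i ⟨iV v, iV_mem hv⟩) with e
  have h1 : pH h = 1 := W_char hS α _ (funext fun j => by
    by_cases c : j = i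
    · subst c; simp [pH, sH_self]
    · simp [pH, sH_ne hS c])
  have h2 : h ^ P i = 1 := by
    rw [e, ← map_pow, ← map_pow, show (⟨iV v, iV_mem hv⟩ : EE (P i)) ^ P i = 1 from Subtype.ext (by
      rw [SubmonoidClass.coe_pow, iV_pow]; ext <;> simp), map_one, map_one]
  refine ⟨(h.1 i).v, (HH_E hS h.2 i).2, Subtype.ext (funext fun j => ?_)⟩
  by_cases c : j = i
  · subst c; rw [sH_self]; exact eq_iV (congrFun h1 j)
  · rw [sH_ne hS c]
    have : (h.1 j) ^ P i = 1 := congrFun (congrArg Subtype.val h2) j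
    rw [eq_iV (congrFun h1 j : (h.1 j).g = 1), iV_pow] at this
    refine Wr.ext (funext fun x => ?_) (congrFun h1 j)
    have := congrFun (congrArg Wr.v this) x
    rw [iV_v, Pi.smul_apply, nsmul_eq_mul, one_v, Pi.zero_apply, mul_eq_zero,
      ZMod.natCast_eq_zero_iff, Nat.prime_dvd_prime_iff_eq (Fact.out : (P j).Prime) Fact.out] at this
    exact this.resolve_left fun e => c (hS.hi e)

def up (i : ℕ) : HH P S →* HH P S :=
  ((MonoidHom.mk' (fun (h : WW P) => Function.update h i 1) fun a b => by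
    rw [← Function.update_mul, one_mul]).comp (HH P S).subtype).codRestrict _ fun h => by
    have := mul_mem h.2 (inv_mem (sing_mem hS i (HH_E hS h.2 i)))
    rwa [show h.1 * (Pi.mulSingle i (h.1 i))⁻¹ = Function.update h.1 i 1 by
      funext j; by_cases c : j = i
      · subst c; simp
      · simp [c]] at this

lemma up_mul (i : ℕ) (h : HH P S) : h = up hS i h * sH hS i ⟨h.1 i, HH_E hS h.2 i⟩ :=
  Subtype.ext (funext fun j => by
    by_cases c : j = i
    · subst c; simp [up, sH_self]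
    · simp [up, sH_ne hS c, c])

lemma up_comm (i : ℕ) (h : HH P S) (e : EE (P i)) : up hS i h * sH hS i e = sH hS i e * up hS i h :=
  Subtype.ext (funext fun j => by
    by_cases c : j = i
    · subst c; simp [up]
    · simp [sH_ne hS c])

lemma aut_loc (α : MulAut (HH P S)) (i : ℕ) (h : HH P S) :
    (α h).1 i = (α (sH hS i ⟨h.1 i, HH_E hS h.2 i⟩)).1 i := by
  let χ : HH P S →* Wr (P i) := (Pi.evalMonoidHom _ i).comp ((HH P S).subtype.comp
    (α.toMonoidHom.comp (up hS i)))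
  have k1 : ∀ h, (χ h).g = 1 := fun h => faith (hS.h8 i) _ fun v hv => by
    obtain ⟨w, hw, e⟩ := V_char hS α⁻¹ i v hv
    have := congrArg α (up_comm hS i h ⟨iV w, iV_mem hw⟩)
    rw [← e, map_mul, map_mul, MulAut.apply_inv_self] at this
    have := congrFun (congrArg Subtype.val this) i
    rwa [Subgroup.coe_mul, Subgroup.coe_mul, Pi.mul_apply, Pi.mul_apply, sH_self] at this
  have k2 : χ = 1 := MonoidHom.eq_of_eqOn_dense Subgroup.closure_closure_coe_preimage fun (s : HH P S) hs => by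
    have : χ s ^ 3 = 1 := by
      rw [← map_pow, show s ^ 3 = 1 from Subtype.ext (HH_cube hS _ hs), map_one]
    rw [eq_iV (k1 s), iV_pow] at this
    refine Wr.ext (funext fun x => ?_) (k1 s)
    have := congrFun (congrArg Wr.v this) x
    rw [iV_v, Pi.smul_apply, nsmul_eq_mul, one_v, Pi.zero_apply, mul_eq_zero] at this
    have h8 := hS.h8 i
    exact this.resolve_left fun e => cast_ne (p := P i) (s := 3) (by omega) (by rw [abs_lt]; omega)
      (by exact_mod_cast e)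
  have : (α (up hS i h)).1 i = 1 := DFunLike.congr_fun k2 h
  conv_lhs => rw [up_mul hS i h, map_mul]
  simp [this]

lemma aut_fix (α : MulAut (HH P S)) (f1 : α (dH hS 1 1) = dH hS 1 1)
    (f2 : α (dH hS (-1) 0) = dH hS (-1) 0) (f3 : α (wH hS (single 0 1)) = wH hS (single 0 1)) :
    α = 1 := by
  ext h i : 3
  let A : Wr (P i) → Wr (P i) := fun e => if he : e ∈ EE (P i) then (α (sH hS i ⟨e, he⟩)).1 i else 1
  have k : ∀ h : HH P S, A (h.1 i) = (α h).1 i := fun h => by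
    simp only [A, dif_pos (HH_E hS h.2 i)]; exact (aut_loc hS α i h).symm
  rw [← k]
  refine rigid (hS.h8 i) A (fun e he e' he' => ?_) (fun e he h1 => ?_)
    (HH_E hS (dH hS (-1) 0).2 i).1 ((k (dH hS 1 1)).trans (by rw [f1]; rfl))
    ((k (dH hS (-1) 0)).trans (by rw [f2]; rfl)) ?_ _ (HH_E hS h.2 i)
  · simp only [A, dif_pos he, dif_pos he', dif_pos (mul_mem he he')]
    rw [← Pi.mul_apply, ← Subgroup.coe_mul, ← map_mul, ← map_mul]; rfl
  · simp only [A, dif_pos he]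
    refine congrFun (W_char hS α _ (funext fun j => ?_)) i
    by_cases c : j = i
    · subst c; simp [pH, sH_self, h1]
    · simp [pH, sH_ne hS c]
  · have := k (wH hS (single 0 1))
    rwa [f3, show (wH hS (single 0 1)).1 i = iV (jv (P i)) by
      ext <;> simp [wH, ww, pj_single]] at this

lemma dH_mul (e e' : ℤˣ) (k k' : ℤ) : dH hS e k * dH hS e' k' = dH hS (e * e') (e * k' + k) :=
  Subtype.ext (by simp [dH, ← DD_mul])
lemma dH_one : dH hS 1 0 = 1 := Subtype.ext (by simp [dH, DD_one])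
lemma wH_add (u v : ℤ →₀ ℤ) : wH hS (u + v) = wH hS u * wH hS v := Subtype.ext (ww_add P u v)
lemma wH_neg (u : ℤ →₀ ℤ) : wH hS (-u) = (wH hS u)⁻¹ := Subtype.ext (ww_neg P u)
lemma wH_zero : wH hS 0 = 1 := Subtype.ext (ww_zero P)
lemma wH_sh (e : ℤˣ) (k : ℤ) (u : ℤ →₀ ℤ) : dH hS e k * wH hS u = wH hS (sh e k u) * dH hS e k :=
  Subtype.ext (ww_sh P e k u)
lemma pH_w (u : ℤ →₀ ℤ) : pH (wH hS u) = 1 := rfl
lemma pH_d (e : ℤˣ) (k : ℤ) : pH (dH hS e k) = DD P e k := rfl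

lemma wd_mul (u u' : ℤ →₀ ℤ) (e e' : ℤˣ) (k k' : ℤ) : wH hS u * dH hS e k * (wH hS u' * dH hS e' k') =
    wH hS (u + sh e k u') * dH hS (e * e') (e * k' + k) := by
  rw [wH_add, ← dH_mul, mul_assoc, mul_assoc, ← mul_assoc (dH hS e k), wH_sh, mul_assoc]

lemma DD_inj {e e' : ℤˣ} {k k' : ℤ} (h : DD P e k = DD P e' k') : e = e' ∧ k = k' := by
  have := aff_triv P hS.hi 0 (e * e') (e * (-e' * k') + k) fun i _ => by
    have := congrFun (show DD P e k * DD P e' (-e' * k') = DD P e' k' * DD P e' (-e' * k') by rw [h]) i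
    rw [DD_mul, DD_mul] at this
    refine this.trans ?_
    rcases Int.units_eq_one_or e' with rfl | rfl <;> simp [DD, aff_one]
  rcases Int.units_eq_one_or e' with rfl | rfl <;> rcases Int.units_eq_one_or e with rfl | rfl <;>
    simp at this ⊢ <;> omega

lemma wd_inj {u u' : ℤ →₀ ℤ} {e e' : ℤˣ} {k k' : ℤ}
    (h : wH hS u * dH hS e k = wH hS u' * dH hS e' k') : u = u' ∧ e = e' ∧ k = k' := by
  have := congrArg pH h
  simp only [map_mul, pH_w, pH_d, one_mul] at this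
  obtain ⟨rfl, rfl⟩ := DD_inj hS this
  refine ⟨sub_eq_zero.1 (pj_const P hS.hi 0 _ fun i _ x y => ?_), rfl, rfl⟩
  have := congrArg Wr.v (congrFun (congrArg Subtype.val (mul_right_cancel h)) i)
  simp only [wH, ww, iV_v] at this
  simp [this]

omit hS in
def Gd (α : MulAut (HH P S)) : Prop := ∀ h : HH P S, (α h).1 ∈ LL P ↔ h.1 ∈ LL P

omit hS in
lemma Gd.inv {α : MulAut (HH P S)} (h : Gd α) : Gd α⁻¹ := fun x => by rw [← h]; simp

omit hS in
lemma Gd.conj {α : MulAut (HH P S)} (h : Gd α) (l : HH P S) (hl : l.1 ∈ LL P) :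
    Gd (MulAut.conj l * α) := fun x => by
  simp only [MulAut.mul_apply, MulAut.conj_apply, Subgroup.coe_mul, Subgroup.coe_inv]
  rw [(LL P).mul_mem_cancel_right (inv_mem hl), (LL P).mul_mem_cancel_left hl, h]

lemma wd_mem (u : ℤ →₀ ℤ) (e : ℤˣ) (k : ℤ) : (wH hS u * dH hS e k).1 ∈ LL P := ⟨u, e, k, rfl⟩
lemma d_mem (e : ℤˣ) (k : ℤ) : (dH hS e k).1 ∈ LL P := by simpa [wH_zero] using wd_mem hS 0 e k
lemma w_mem (u : ℤ →₀ ℤ) : (wH hS u).1 ∈ LL P := by simpa [dH_one] using wd_mem hS u 1 0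

lemma Gd.ex {α : MulAut (HH P S)} (h : Gd α) {l : HH P S} (hl : l.1 ∈ LL P) :
    ∃ u e k, α l = wH hS u * dH hS e k := by
  obtain ⟨u, e, k, a⟩ := (h l).2 hl
  exact ⟨u, e, k, Subtype.ext a⟩

lemma Gd.w {α : MulAut (HH P S)} (h : Gd α) (u : ℤ →₀ ℤ) : ∃ u', α (wH hS u) = wH hS u' := by
  obtain ⟨u', e, k, a⟩ := h.ex hS (w_mem hS u)
  have := W_char hS α _ (pH_w hS u)
  rw [a, map_mul, pH_w, pH_d, one_mul, ← DD_one] at this
  obtain ⟨rfl, rfl⟩ := DD_inj hS this
  exact ⟨u', by rw [a, dH_one, mul_one]⟩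

lemma Gd.refl {α : MulAut (HH P S)} (h : Gd α) (k : ℤ) :
    ∃ u k', α (dH hS (-1) k) = wH hS u * dH hS (-1) k' ∧ ep u = 0 := by
  obtain ⟨u, e, k', a⟩ := h.ex hS (d_mem hS (-1) k)
  have : α (dH hS (-1) k) * α (dH hS (-1) k) = wH hS 0 * dH hS 1 0 := by
    rw [← map_mul, dH_mul]; simp [dH_one, wH_zero]
  rw [a, wd_mul] at this
  obtain ⟨b1, -, b3⟩ := wd_inj hS this
  rcases Int.units_eq_one_or e with rfl | rfl
  · obtain rfl : k' = 0 := by simp at b3; omega
    have := W_char hS α⁻¹ (α (dH hS (-1) k)) (by rw [a, dH_one, mul_one, pH_w])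
    rw [MulAut.inv_apply_self, pH_d, ← DD_one] at this
    exact absurd (DD_inj hS this).1 (by decide)
  · have := congrArg ep b1
    rw [map_add, ep_sh, map_zero] at this
    exact ⟨u, k', a, by omega⟩

lemma Gd.tr {α : MulAut (HH P S)} (h : Gd α) :
    ∃ u m, α (dH hS 1 1) = wH hS u * dH hS 1 m ∧ ep u = 0 := by
  obtain ⟨u, k, a, b⟩ := h.refl hS 1
  obtain ⟨u', k', a', b'⟩ := h.refl hS 0
  refine ⟨u + sh (-1) k u', -k' + k, ?_, by rw [map_add, ep_sh, b, b', add_zero]⟩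
  rw [show dH hS 1 1 = dH hS (-1) 1 * dH hS (-1) 0 by simp [dH_mul], map_mul, a, a', wd_mul]
  simp

def Ph0 : Set (MulAut (HH P S)) := {α | α (dH hS 1 1) = dH hS 1 1 ∧ α (dH hS (-1) 0) = dH hS (-1) 0 ∧
  (α (wH hS (single 0 1)) = wH hS (single 0 1) ∨ α (wH hS (single 0 1)) = wH hS (single 0 (-1)))}

lemma Ph0_fin : (Ph0 hS).Finite := by
  refine Set.Finite.of_finite_image (f := fun α => α (wH hS (single 0 1)))
    ((Set.toFinite {wH hS (single 0 1), wH hS (single 0 (-1))}).subset ?_) fun α a β b e => ?_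
  · rintro _ ⟨α, a, rfl⟩; exact a.2.2
  · have k : ∀ x, α x = β x → (β⁻¹ * α) x = x := fun x e => by
      rw [MulAut.mul_apply, e, MulAut.inv_apply_self]
    have := aut_fix hS (β⁻¹ * α) (k _ (a.1.trans b.1.symm)) (k _ (a.2.1.trans b.2.1.symm)) (k _ e)
    exact (inv_mul_eq_one.1 this).symm

lemma st3 {α : MulAut (HH P S)} (h : Gd α) (f : α (dH hS 1 1) = dH hS 1 1) :
    ∃ l : HH P S, l.1 ∈ LL P ∧ MulAut.conj l * α ∈ Ph0 hS := by
  have winj : ∀ u v, wH hS u = wH hS v → u = v := fun u v e =>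
    (wd_inj hS (congrArg (· * dH hS 1 0) e)).1
  obtain ⟨u, k, a, -⟩ := h.refl hS 0
  have : α (dH hS 1 1 * dH hS (-1) 0 * dH hS 1 1) = α (dH hS (-1) 0) := by simp [dH_mul]
  rw [map_mul, map_mul, f, a, ← mul_assoc, wH_sh, mul_assoc, mul_assoc, dH_mul, dH_mul] at this
  obtain rfl := sh_fix u (wd_inj hS this).1
  rw [wH_zero, one_mul] at a
  choose θ hθ using h.w hS
  obtain ⟨v, hv⟩ := h.inv.w hS (single 0 1)
  obtain ⟨r, hr⟩ := unit_of (AddMonoidHom.mk' θ fun x y => winj _ _ (by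
    rw [← hθ, wH_add, map_mul, hθ, hθ, wH_add])) (fun x => winj _ _ (by
    have := congrArg α (wH_sh hS 1 1 x)
    rw [map_mul, map_mul, f, hθ, hθ, wH_sh] at this
    exact (mul_right_cancel this).symm)) v (winj _ _ (by
      rw [AddMonoidHom.mk'_apply, ← hθ, ← hv, MulAut.apply_inv_self]))
  simp only [AddMonoidHom.mk'_apply] at hr
  have k2 : k = 2 * r := by
    have := congrArg α (wH_sh hS (-1) 0 (single 0 1))
    rw [sh_single, map_mul, map_mul, a, mul_zero, add_zero, hθ, wH_sh] at this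
    have := winj _ _ (mul_right_cancel this)
    rcases hr with hr | hr <;> rw [hr, sh_single, single_left_inj (by decide)] at this <;>
      simp at this <;> omega
  have i : (dH hS 1 (-r))⁻¹ = dH hS 1 r := by rw [inv_eq_iff_mul_eq_one, dH_mul]; simp [dH_one]
  refine ⟨dH hS 1 (-r), d_mem hS _ _, ?_, ?_, ?_⟩ <;>
    simp only [MulAut.mul_apply, MulAut.conj_apply]
  · rw [f, i, dH_mul, dH_mul]; simp
  · rw [a, i, dH_mul, dH_mul]; congr 1 <;> simp; omega
  · rw [hθ, wH_sh, mul_inv_cancel_right]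
    exact hr.imp (fun e => by simp [e, sh_single]) fun e => by simp [e, sh_single]

lemma st2 {α : MulAut (HH P S)} (h : Gd α) (u : ℤ →₀ ℤ) (f : α (dH hS 1 1) = wH hS u * dH hS 1 1)
    (hu : ep u = 0) : ∃ l : HH P S, l.1 ∈ LL P ∧ MulAut.conj l * α ∈ Ph0 hS := by
  obtain ⟨v, rfl⟩ := ep_zero u hu
  obtain ⟨l, l1, l2⟩ := st3 hS (h.conj _ (w_mem hS v)) (by
    rw [MulAut.mul_apply, MulAut.conj_apply, f, ← wH_neg, mul_assoc, mul_assoc, wH_sh, ← mul_assoc,
      ← mul_assoc, ← wH_add, ← wH_add]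
    simp [wH_zero])
  exact ⟨l * wH hS v, mul_mem l1 (w_mem hS v), by rwa [map_mul, mul_assoc]⟩

theorem st1 {α : MulAut (HH P S)} (h : Gd α) :
    ∃ l : HH P S, l.1 ∈ LL P ∧ MulAut.conj l * α ∈ Ph0 hS := by
  obtain ⟨u, m, a, b⟩ := h.tr hS
  obtain ⟨u', m', a', -⟩ := h.inv.tr hS
  have : m' * m = 1 := by
    have e := congrArg (fun x => pH (α x)) a'
    have e2 : dH hS 1 m' = dH hS 1 1 ^ m' := Subtype.ext (by
      simp only [dH, SubgroupClass.coe_zpow, ← map_zpow, DD_zpow, mul_one])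
    simp only [MulAut.apply_inv_self, map_mul, W_char hS α _ (pH_w hS u'), e2, map_zpow, a, pH_w,
      pH_d, one_mul, DD_zpow] at e
    exact (DD_inj hS e).2.symm
  rcases Int.eq_one_or_neg_one_of_mul_eq_one' this with ⟨-, rfl⟩ | ⟨-, rfl⟩
  · exact st2 hS h u a b
  · obtain ⟨l, l1, l2⟩ := st2 hS (h.conj _ (d_mem hS (-1) 0)) (sh (-1) 0 u) (by
      rw [MulAut.mul_apply, MulAut.conj_apply, a, mul_inv_eq_iff_eq_mul, ← mul_assoc, wH_sh,
        mul_assoc, mul_assoc, dH_mul, dH_mul]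
      simp) (by rw [ep_sh, b])
    exact ⟨l * dH hS (-1) 0, mul_mem l1 (d_mem hS _ _), by rwa [map_mul, mul_assoc]⟩

end Pool.Agent.H.MP_216434_al
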