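import Pool.Agent.H.MP_fcd401_al.Prod

set_option autoImplicit false

namespace Pool.Agent.H.MP_216434_al

open Classical Equiv Equiv.Perm Pool.Agent.H.MP_fcd401_al

@[ext] structure Wr (p : ℕ) where
  v : ZMod p → ZMod p
  g : Perm (ZMod p)

variable {p : ℕ}

instance : Mul (Wr p) := ⟨fun a b => ⟨fun x => a.v x + b.v (a.g⁻¹ x), a.g * b.g⟩⟩
instance : One (Wr p) := ⟨⟨0, 1⟩⟩
instance : Inv (Wr p) := ⟨fun a => ⟨fun x => -a.v (a.g x), a.g⁻¹⟩⟩
@[simp] lemma mul_v (a b : Wr p) (x : ZMod p) : (a * b).v x = a.v x + b.v (a.g⁻¹ x) := rfl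
@[simp] lemma mul_g (a b : Wr p) : (a * b).g = a.g * b.g := rfl
@[simp] lemma one_v : (1 : Wr p).v = 0 := rfl
@[simp] lemma one_g : (1 : Wr p).g = 1 := rfl
@[simp] lemma inv_v (a : Wr p) (x : ZMod p) : a⁻¹.v x = -a.v (a.g x) := rfl
@[simp] lemma inv_g (a : Wr p) : a⁻¹.g = a.g⁻¹ := rfl

instance : Group (Wr p) := Group.ofLeftAxioms
  (fun a b c => by ext <;> simp [add_assoc]) (fun a => by ext <;> simp) fun a => by ext <;> simp

def gH : Wr p →* Perm (ZMod p) := MonoidHom.mk' Wr.g fun _ _ => rfl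
def iP : Perm (ZMod p) →* Wr p := MonoidHom.mk' (fun g => ⟨0, g⟩) fun _ _ => by ext <;> simp
def iV (v : ZMod p → ZMod p) : Wr p := ⟨v, 1⟩
@[simp] lemma iP_v (g : Perm (ZMod p)) : (iP g).v = 0 := rfl
@[simp] lemma iP_g (g : Perm (ZMod p)) : (iP g).g = g := rfl
@[simp] lemma iV_v (v : ZMod p → ZMod p) : (iV v).v = v := rfl
@[simp] lemma iV_g (v : ZMod p → ZMod p) : (iV v).g = 1 := rfl
lemma iV_add (v w : ZMod p → ZMod p) : iV (v + w) = iV v * iV w := by ext <;> simp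
lemma iV_neg (v : ZMod p → ZMod p) : iV (-v) = (iV v)⁻¹ := by ext <;> simp
lemma iV_zero : iV (0 : ZMod p → ZMod p) = 1 := rfl
lemma iV_pow (v : ZMod p → ZMod p) (n : ℕ) : iV v ^ n = iV (n • v) := by
  induction n with
  | zero => simp [iV_zero]
  | succ n ih => rw [pow_succ, ih, succ_nsmul, iV_add]
lemma iV_conj (e : Wr p) (v : ZMod p → ZMod p) : e * iV v * e⁻¹ = iV fun x => v (e.g⁻¹ x) := by
  ext <;> simp
lemma eq_iV {e : Wr p} (h : e.g = 1) : e = iV e.v := by ext <;> simp [h]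

def vs (K : Subgroup (Wr p)) : AddSubgroup (ZMod p → ZMod p) where
  carrier := {v | iV v ∈ K}
  zero_mem' := K.one_mem
  add_mem' {a b} h h' := by show iV (a + b) ∈ K; rw [iV_add]; exact K.mul_mem h h'
  neg_mem' {a} h := by show iV (-a) ∈ K; rw [iV_neg]; exact K.inv_mem h

def aff (p : ℕ) (e : ℤˣ) (k : ℤ) : Perm (ZMod p) where
  toFun x := ((e : ℤ) : ZMod p) * x + k
  invFun x := ((e : ℤ) : ZMod p) * (x - k)
  left_inv x := by rcases Int.units_eq_one_or e with rfl | rfl <;> simp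
  right_inv x := by rcases Int.units_eq_one_or e with rfl | rfl <;> simp

@[simp] lemma aff_apply (e : ℤˣ) (k : ℤ) (x : ZMod p) : aff p e k x = ((e : ℤ) : ZMod p) * x + k := rfl
@[simp] lemma aff_symm (e : ℤˣ) (k : ℤ) (x : ZMod p) :
    (aff p e k).symm x = ((e : ℤ) : ZMod p) * (x - k) := rfl
lemma aff_mul (e e' : ℤˣ) (k k' : ℤ) : aff p e k * aff p e' k' = aff p (e * e') (e * k' + k) := by
  ext; simp; ring
lemma aff_one : aff p 1 0 = 1 := by ext; simp
lemma aff_pow (k : ℤ) (n : ℕ) : aff p 1 k ^ n = aff p 1 (n * k) := by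
  induction n with
  | zero => simp [aff_one]
  | succ n ih => rw [pow_succ, ih, aff_mul]; congr 1; push_cast; ring

def dl (x : ZMod p) : ZMod p → ZMod p := Pi.single x 1

lemma dl_apply (x y : ZMod p) : dl x y = if y = x then 1 else 0 := Pi.single_apply _ _ _

lemma dl_inv (g : Perm (ZMod p)) (x y : ZMod p) : dl x (g⁻¹ y) = dl (g x) y := by
  simp only [dl_apply, Perm.inv_eq_iff_eq]

def jv (p : ℕ) : ZMod p → ZMod p := (dl 1 - dl 0) - (dl 0 - dl (-1))

variable [Fact p.Prime]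

instance : Finite (Wr p) := Finite.of_injective (fun a : Wr p => (a.v, a.g)) fun _ _ e =>
  Wr.ext (congrArg Prod.fst e) (congrArg Prod.snd e)

def EE (p : ℕ) [Fact p.Prime] : Subgroup (Wr p) where
  carrier := {e | e.g ∈ alternatingGroup (ZMod p) ∧ ∑ x, e.v x = 0}
  one_mem' := ⟨one_mem _, by simp⟩
  mul_mem' {a b} h h' := ⟨mul_mem h.1 h'.1, by
    simp only [mul_v, Finset.sum_add_distrib, Equiv.sum_comp a.g⁻¹ b.v, h.2, h'.2, add_zero]⟩
  inv_mem' {a} h := ⟨inv_mem h.1, by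
    simp only [inv_v, Finset.sum_neg_distrib, Equiv.sum_comp a.g a.v, h.2, neg_zero]⟩

lemma iP_mem {g : Perm (ZMod p)} (h : g ∈ alternatingGroup (ZMod p)) : iP g ∈ EE p := ⟨h, by simp⟩
lemma iV_mem {v : ZMod p → ZMod p} (h : ∑ x, v x = 0) : iV v ∈ EE p := ⟨one_mem _, h⟩
lemma dd_sum (s t : ZMod p) : ∑ x, (dl s - dl t) x = 0 := by simp [dl, Finset.sum_sub_distrib]

lemma smul_mem (K : AddSubgroup (ZMod p → ZMod p)) (c : ZMod p) {v : ZMod p → ZMod p} (h : v ∈ K) :
    c • v ∈ K := by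
  rw [← ZMod.natCast_zmod_val c, Nat.cast_smul_eq_nsmul]; exact K.nsmul_mem h _

lemma span (K : AddSubgroup (ZMod p → ZMod p)) (d : ZMod p) (hd : d ≠ 0)
    (h : ∀ s, dl (s + d) - dl s ∈ K) (v : ZMod p → ZMod p) (hv : ∑ x, v x = 0) : v ∈ K := by
  have k1 : ∀ n : ℕ, dl ((n : ZMod p) * d) - dl 0 ∈ K := by
    intro n
    induction n with
    | zero => simp
    | succ n ih => have := K.add_mem (h (n * d)) ih; simpa [add_mul] using this
  have k2 : ∀ s, dl s - dl 0 ∈ K := fun s => by simpa [hd] using k1 (s / d).val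
  have : v = ∑ s, v s • (dl s - dl 0) := by
    simp only [smul_sub, Finset.sum_sub_distrib, ← Finset.sum_smul, hv, zero_smul, sub_zero]
    ext x; simp [dl_apply]
  rw [this]
  exact K.sum_mem fun s _ => smul_mem K _ (k2 s)

variable (h8 : 8 ≤ p)
include h8

lemma tr_even (k : ℤ) : aff p 1 k ∈ alternatingGroup (ZMod p) := by
  have : sign (aff p 1 k) ^ p = 1 := by
    rw [← map_pow, aff_pow, show aff p 1 (p * k) = 1 by ext; simp, map_one]
  rcases Int.units_eq_one_or (sign (aff p 1 k)) with h | h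
  · exact h
  · rw [h, ((Fact.out : p.Prime).odd_of_ne_two (by omega)).neg_one_pow] at this
    exact absurd this (by decide)

lemma fresh (s : Finset (ZMod p)) (hs : s.card ≤ 7) : ∃ x, x ∉ s := by
  obtain ⟨x, -, h⟩ := Finset.exists_mem_notMem_of_card_lt_card (s := s) (t := Finset.univ)
    (by simp; omega)
  exact ⟨x, h⟩

omit h8 in
lemma cyc_even {x y z : ZMod p} (h1 : x ≠ y) (h2 : x ≠ z) :
    swap x z * swap x y ∈ alternatingGroup (ZMod p) := by
  rw [mem_alternatingGroup, map_mul, sign_swap h1, sign_swap h2]; simp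

variable (N : Subgroup (Wr p)) (hN : ∀ e ∈ EE p, ∀ n ∈ N, e * n * e⁻¹ ∈ N)
include hN

lemma norm_V (w : ZMod p → ZMod p) (x y : ZMod p) (hw : w y ≠ w x)
    (h : ∀ e ∈ EE p, iV w * e * (iV w)⁻¹ * e⁻¹ ∈ N) (v : ZMod p → ZMod p) (hv : ∑ x, v x = 0) :
    iV v ∈ N := by
  have xy : x ≠ y := fun e => hw (by rw [e])
  obtain ⟨z, hz⟩ := fresh h8 {x, y} (Finset.card_le_two.trans (by omega))
  obtain ⟨u, hu⟩ := fresh h8 {x, y, z} (Finset.card_le_three.trans (by omega))
  obtain ⟨u', hu'⟩ := fresh h8 {x, y, z, u} (Finset.card_le_four.trans (by omega))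
  simp only [Finset.mem_insert, Finset.mem_singleton, not_or] at hz hu hu'
  have act : ∀ g ∈ alternatingGroup (ZMod p), ∀ v ∈ vs N, (fun t => v (g⁻¹ t)) ∈ vs N :=
    fun g hg v hv => by have := hN _ (iP_mem hg) _ hv; rwa [iV_conj] at this
  let w1 := fun t => w t - w ((swap x z * swap x y)⁻¹ t)
  have m1 : w1 ∈ vs N := by
    have := h _ (iP_mem (cyc_even xy (Ne.symm hz.1)))
    rwa [show iV w * iP (swap x z * swap x y) * (iV w)⁻¹ * (iP (swap x z * swap x y))⁻¹ = iV w1 by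
      ext <;> simp [w1, sub_eq_add_neg]] at this
  have z1 : ∀ t, t ≠ x → t ≠ y → t ≠ z → w1 t = 0 := fun t a b c => by
    simp [w1, swap_apply_of_ne_of_ne, a, b, c]
  have z2 : w1 y ≠ 0 := by
    simpa [w1, swap_apply_of_ne_of_ne xy.symm (Ne.symm hz.2), sub_eq_zero] using hw
  have m2 := (vs N).sub_mem (act _ (cyc_even (Ne.symm hu.2.1) (Ne.symm hu'.2.1)) _ m1) m1
  have e : (fun t => w1 ((swap y u' * swap y u)⁻¹ t)) - w1 = w1 y • (dl u - dl y) := by
    ext t
    simp only [mul_inv_rev, swap_inv, Perm.mul_apply, Pi.sub_apply, Pi.smul_apply, dl_apply]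
    by_cases a : t = y
    · subst a
      rw [swap_apply_left, swap_apply_of_ne_of_ne hu'.2.1 hu'.2.2.2, z1 _ hu'.1 hu'.2.1 hu'.2.2.1]
      simp [Ne.symm hu.2.1]
    by_cases b : t = u
    · subst b
      rw [swap_apply_of_ne_of_ne a (Ne.symm hu'.2.2.2), swap_apply_right, z1 _ hu.1 hu.2.1 hu.2.2]
      simp [a]
    by_cases c : t = u'
    · subst c
      rw [swap_apply_right, swap_apply_left, z1 _ hu.1 hu.2.1 hu.2.2, z1 _ hu'.1 hu'.2.1 hu'.2.2.1]
      simp [a, b]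
    simp [swap_apply_of_ne_of_ne, a, b, c]
  have m3 := smul_mem _ (w1 y)⁻¹ (e ▸ m2)
  rw [inv_smul_smul₀ z2] at m3
  refine span (vs N) (u - y) (sub_ne_zero.2 hu.2.1) (fun s => ?_) v hv
  have := act _ (tr_even h8 ((s - y).val : ℤ)) _ m3
  simp only [Pi.sub_apply, dl_inv, aff_apply] at this
  simp only [Units.val_one, Int.cast_one, one_mul, Int.cast_natCast, ZMod.natCast_zmod_val] at this
  rwa [show u + (s - y) = s + (u - y) by ring, add_sub_cancel] at this

omit N hN in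
lemma noncent (u : Perm (ZMod p)) (hu : u ≠ 1) :
    ∃ r ∈ alternatingGroup (ZMod p), u * r ≠ r * u := by
  obtain ⟨x, hx⟩ : ∃ x, u x ≠ x := by
    by_contra hc
    push Not at hc
    exact hu (Equiv.ext hc)
  obtain ⟨y, hy⟩ := fresh h8 {x, u x} (Finset.card_le_two.trans (by omega))
  obtain ⟨z, hz⟩ := fresh h8 {x, u x, y} (Finset.card_le_three.trans (by omega))
  simp only [Finset.mem_insert, Finset.mem_singleton, not_or] at hy hz
  refine ⟨_, cyc_even (Ne.symm hz.2.1) (Ne.symm hy.2), fun h => ?_⟩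
  have := Equiv.congr_fun h x
  simp only [Perm.mul_apply, swap_apply_left] at this
  rw [swap_apply_of_ne_of_ne hx.symm (Ne.symm hz.1), swap_apply_of_ne_of_ne hx.symm (Ne.symm hy.1),
    swap_apply_of_ne_of_ne hz.2.1 hz.2.2] at this
  exact hz.2.1 this.symm

lemma norm_E (u : Wr p) (hu : u ∈ EE p) (h1 : u.g ≠ 1)
    (h : ∀ e ∈ EE p, u * e * u⁻¹ * e⁻¹ ∈ N) : EE p ≤ N := by
  obtain ⟨x, hx⟩ : ∃ x, u.g x ≠ x := by
    by_contra hc
    push Not at hc
    exact h1 (Equiv.ext hc)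
  obtain ⟨y, hy⟩ := fresh h8 {x, u.g⁻¹ x} (Finset.card_le_two.trans (by omega))
  obtain ⟨z, hz⟩ := fresh h8 {x, y, u.g x, u.g y} (Finset.card_le_four.trans (by omega))
  simp only [Finset.mem_insert, Finset.mem_singleton, not_or] at hy hz
  have y2 : x ≠ u.g y := fun e => hy.2 (by rw [e]; simp)
  have m := h _ (iV_mem (dd_sum x y))
  rw [iV_conj, ← iV_neg, ← iV_add] at m
  have hV := norm_V h8 N hN ((fun t => (dl x - dl y) (u.g⁻¹ t)) + -(dl x - dl y)) x z (by
    simp only [Pi.add_apply, Pi.sub_apply, dl_inv]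
    simp [dl_apply, hz, hx.symm, y2, Ne.symm hy.1]) fun e he => by
      simpa only [mul_assoc] using N.mul_mem m (hN e he _ (N.inv_mem m))
  haveI := alt_simple (α := ZMod p) (by simp; omega)
  have nm : (((N ⊓ EE p).map gH).subgroupOf (alternatingGroup _)).Normal := ⟨by
    rintro ⟨_, hx⟩ ⟨n, n1, rfl⟩ ⟨s, hs⟩
    exact ⟨_, ⟨hN _ (iP_mem hs) _ n1.1,
      (EE p).mul_mem ((EE p).mul_mem (iP_mem hs) n1.2) ((EE p).inv_mem (iP_mem hs))⟩, rfl⟩⟩
  obtain ⟨r, r1, r2⟩ := noncent h8 u.g h1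
  have mE := mul_mem (mul_mem (mul_mem hu (iP_mem r1)) (inv_mem hu)) (inv_mem (iP_mem r1))
  have top := nm.eq_bot_or_eq_top.resolve_left fun hb => r2 (by
    have : (⟨_, mE.1⟩ : alternatingGroup _) ∈ ((N ⊓ EE p).map gH).subgroupOf (alternatingGroup _) :=
      ⟨_, ⟨h _ (iP_mem r1), mE⟩, rfl⟩
    rw [hb, Subgroup.mem_bot, Subtype.ext_iff] at this
    simpa [mul_inv_eq_iff_eq_mul] using this)
  intro e he
  obtain ⟨n, n1, n2⟩ := Subgroup.subgroupOf_eq_top.1 top he.1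
  have := hV _ (mul_mem he (inv_mem n1.2)).2
  rw [← eq_iV (by rw [mul_g, inv_g, mul_inv_eq_one]; exact n2.symm)] at this
  simpa using N.mul_mem this n1.1

omit N hN in
lemma rigid (A : Wr p → Wr p) (hm : ∀ e ∈ EE p, ∀ e' ∈ EE p, A (e * e') = A e * A e')
    (hg : ∀ e ∈ EE p, e.g = 1 → (A e).g = 1) (ha : aff p (-1) 0 ∈ alternatingGroup (ZMod p))
    (f1 : A (iP (aff p 1 1)) = iP (aff p 1 1)) (f2 : A (iP (aff p (-1) 0)) = iP (aff p (-1) 0))
    (f3 : A (iV (jv p)) = iV (jv p)) (e : Wr p) (he : e ∈ EE p) : A e = e := by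
  have a1 : A 1 = 1 := by simpa using hm 1 (one_mem _) 1 (one_mem _)
  have ai : ∀ e ∈ EE p, A e⁻¹ = (A e)⁻¹ := fun e he => by
    rw [eq_inv_iff_mul_eq_one, ← hm _ (inv_mem he) _ he, inv_mul_cancel, a1]
  have ac : ∀ e ∈ EE p, ∀ e' ∈ EE p, A (e * e' * e⁻¹) = A e * A e' * (A e)⁻¹ := fun e he e' he' => by
    rw [hm _ (mul_mem he he') _ (inv_mem he), hm _ he _ he', ai _ he]
  let F : Subgroup (Wr p) :=
    { carrier := {e | e ∈ EE p ∧ A e = e}
      one_mem' := ⟨one_mem _, a1⟩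
      mul_mem' := fun h h' => ⟨mul_mem h.1 h'.1, by rw [hm _ h.1 _ h'.1, h.2, h'.2]⟩
      inv_mem' := fun h => ⟨inv_mem h.1, by rw [ai _ h.1, h.2]⟩ }
  have fT : iP (aff p 1 1) ∈ F := ⟨iP_mem (tr_even h8 1), f1⟩
  have fb : iP (aff p 1 1) * iP (aff p (-1) 0) ∈ F := mul_mem fT ⟨iP_mem ha, f2⟩
  have fT' : ∀ s : ZMod p, iP (aff p 1 s.val) ∈ F := fun s => by
    have := F.pow_mem fT s.val
    rwa [← map_pow, aff_pow, mul_one] at this
  have two : (2 : ZMod p) ≠ 0 := fun e => by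
    have := Nat.le_of_dvd two_pos ((ZMod.natCast_eq_zero_iff 2 p).1 e); omega
  have m0 := iV_mem (dd_sum (1 : ZMod p) 0)
  have e0 : iV (dl 1 - dl 0) ∈ F := by
    refine ⟨m0, ?_⟩
    have g0 := hg _ m0 rfl
    have k1 : ∀ x, (A (iV (dl 1 - dl 0))).v (x + 1) - (dl 1 (x + 1) - dl 0 (x + 1)) =
        (A (iV (dl 1 - dl 0))).v x - (dl 1 x - dl 0 x) := fun x => by
      have : iV (jv p) = iV (dl 1 - dl 0) *
          ((iP (aff p 1 1))⁻¹ * (iV (dl 1 - dl 0))⁻¹ * (iP (aff p 1 1))⁻¹⁻¹) := by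
        ext x
        · simp [jv, dl_apply, add_eq_zero_iff_eq_neg]; ring
        · simp
      rw [this, hm _ m0 _ (mul_mem (mul_mem (inv_mem fT.1) (inv_mem m0)) (inv_mem (inv_mem fT.1))),
        ac _ (inv_mem fT.1) _ (inv_mem m0), (inv_mem fT).2, ai _ m0] at f3
      have := congrFun (congrArg Wr.v f3) x
      simp [g0] at this ⊢
      linear_combination -this
    have k2 : ∀ x, (A (iV (dl 1 - dl 0))).v x - (dl 1 x - dl 0 x) =
        (A (iV (dl 1 - dl 0))).v 0 - (dl 1 0 - dl 0 0) := fun x => by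
      rw [← ZMod.natCast_zmod_val x]
      induction x.val with
      | zero => simp
      | succ n ih => rw [Nat.cast_succ, k1, ih]
    have k3 := ac _ fb.1 _ m0
    rw [fb.2, show iP (aff p 1 1) * iP (aff p (-1) 0) * iV (dl 1 - dl 0) *
      (iP (aff p 1 1) * iP (aff p (-1) 0))⁻¹ = (iV (dl 1 - dl 0))⁻¹ by
        rw [iV_conj, ← iV_neg]; simp only [Pi.sub_apply, dl_inv]; simp; rfl, ai _ m0] at k3
    have k4 := congrFun (congrArg Wr.v k3) 0
    have k5 := k2 1
    simp [g0, dl_apply] at k4 k5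
    ext x
    · have := k2 x
      have e : (2 : ZMod p) * ((A (iV (dl 1 - dl 0))).v x - (dl 1 x - dl 0 x)) = 0 := by
        rw [this, dl_apply, dl_apply, if_neg zero_ne_one, if_pos rfl]
        linear_combination -k4 - k5
      exact sub_eq_zero.1 ((mul_eq_zero.1 e).resolve_left two)
    · simp [g0]
  have fV : ∀ v, ∑ x, v x = 0 → iV v ∈ F := span (vs F) 1 one_ne_zero fun s => by
    have := mul_mem (mul_mem (fT' s) e0) (inv_mem (fT' s))
    rw [iV_conj] at this
    simp only [Pi.sub_apply, dl_inv] at this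
    simp only [iP_g, aff_apply, Units.val_one, Int.cast_one, one_mul, Int.cast_natCast,
      ZMod.natCast_zmod_val, zero_add, add_comm (1 : ZMod p)] at this
    exact this
  have gg : ∀ e ∈ EE p, (A e).g = e.g := fun e he => by
    refine inv_injective (Equiv.ext fun x => ?_)
    obtain ⟨t, ht⟩ := exists_ne (e.g⁻¹ x)
    have m := fV _ (dd_sum (e.g⁻¹ x) t)
    have k := ac e he _ m.1
    rw [m.2, iV_conj, iV_conj, (fV _ (by
      have := (mul_mem (mul_mem he m.1) (inv_mem he)).2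
      rwa [iV_conj] at this)).2] at k
    have := congrFun (congrArg Wr.v k) x
    simp only [iV_v, Pi.sub_apply, dl_apply, if_true, if_neg ht.symm] at this
    by_contra hc
    rw [if_neg hc] at this
    split_ifs at this
    · exact two (by linear_combination this)
    · simp at this
  have st : ∀ g ∈ alternatingGroup (ZMod p), ∀ u, g u = u → (A (iP g)).v u = 0 := by
    intro g hg u hu
    have k1 : ∀ n : ℕ, (A (iP (g ^ n))).v u = n * (A (iP g)).v u := by
      intro n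
      induction n with
      | zero => simp [a1]
      | succ n ih =>
        rw [pow_succ', map_mul, hm _ (iP_mem hg) _ (iP_mem (pow_mem hg n)), mul_v, gg _ (iP_mem hg),
          iP_g, Perm.inv_eq_iff_eq.2 hu.symm, ih]
        push_cast; ring
    have c := (MulAction.stabilizer (Perm (ZMod p)) u).card_mul_index
    rw [MulAction.index_stabilizer_of_transitive, Nat.card_perm, Nat.card_zmod,
      ← Nat.mul_factorial_pred (by omega : p ≠ 0), mul_comm p] at c
    have k2 := k1 (p - 1).factorial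
    have : g ^ (p - 1).factorial = 1 := by
      rw [← Nat.eq_of_mul_eq_mul_right (by omega) c]
      exact congrArg Subtype.val (pow_card_eq_one' (x := (⟨g, hu⟩ : MulAction.stabilizer _ u)))
    rw [this, map_one, a1, ZMod.wilsons_lemma] at k2
    simpa using k2
  have fP : iP e.g ∈ F := ⟨iP_mem he.1, Wr.ext (funext fun x => by
    have t := fT' (e.g⁻¹ x - x)
    have := st _ (mul_mem t.1.1 he.1) (e.g⁻¹ x) (by simp)
    rw [iP_g, map_mul, hm _ t.1 _ (iP_mem he.1), t.2] at this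
    simpa using this) (gg _ (iP_mem he.1))⟩
  have := (mul_mem (fV _ he.2) fP).2
  rwa [show iV e.v * iP e.g = e by ext <;> simp] at this

end Pool.Agent.H.MP_216434_al
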